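import Pool.Agent.H66.SYM.Basic

/-!
# Cauchy's identity
-/

namespace Pool.H66.SYM

open PowerSeries in
theorem CAU_prod (X : Multiset ℂ) {m : ℕ} (c : Fin m → ℂ) :
    ((X.bind fun a => Finset.univ.val.map fun j => a * c j).map
      fun a => (PowerSeries.mk fun n => a ^ n : PowerSeries ℂ)).prod =
    ∏ j, PowerSeries.rescale (c j)
      (X.map fun a => (PowerSeries.mk fun n => a ^ n : PowerSeries ℂ)).prod := by
  induction X using Multiset.induction_on with
  | empty => simp
  | cons a X ih =>
    rw [Multiset.cons_bind, Multiset.map_add, Multiset.prod_add, ih, Multiset.map_cons,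
      Multiset.prod_cons]
    simp only [map_mul, Finset.prod_mul_distrib]
    congr 1
    rw [Multiset.map_map]
    change ∏ j, _ = _
    refine Finset.prod_congr rfl fun j _ => ?_
    ext n
    simp [PowerSeries.coeff_rescale, mul_pow, mul_comm]

theorem CAU_hs (X : Multiset ℂ) {m : ℕ} (c : Fin m → ℂ) (k : ℕ) :
    hs k (X.bind fun a => Finset.univ.val.map fun j => a * c j) =
    ∑ l ∈ (Finset.univ : Finset (Fin m)).finsuppAntidiag k, ∏ j, (c j ^ l j * hs (l j) X) := by
  unfold hs
  rw [CAU_prod, PowerSeries.coeff_prod]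
  refine Finset.sum_congr rfl fun l _ => Finset.prod_congr rfl fun j _ => ?_
  rw [PowerSeries.coeff_rescale]

theorem CAU_hs1 {m : ℕ} (c : Fin m → ℂ) (k : ℕ) :
    hs k (Finset.univ.val.map c) =
    ∑ l ∈ (Finset.univ : Finset (Fin m)).finsuppAntidiag k, ∏ j, c j ^ l j := by
  unfold hs
  rw [Multiset.map_map]
  change PowerSeries.coeff k (∏ j, _) = _
  rw [PowerSeries.coeff_prod]
  simp

/-- The determinants. -/
noncomputable def CAU_D (X : Multiset ℂ) {m : ℕ} (α : Fin m → ℕ) : ℂ :=
  (Matrix.of fun i j : Fin m => sz (fun k => hs k X) ((α i : ℤ) - ((m - 1 - (j : ℕ) : ℕ) : ℤ))).det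

theorem CAU_D_perm (X : Multiset ℂ) {m : ℕ} (α : Fin m → ℕ) (σ : Equiv.Perm (Fin m)) :
    CAU_D X (α ∘ σ) = (Equiv.Perm.sign σ : ℤ) * CAU_D X α := by
  unfold CAU_D
  rw [← Matrix.det_permute]
  rfl

theorem CAU_D_inj (X : Multiset ℂ) {m : ℕ} (α : Fin m → ℕ) (h : ¬ Function.Injective α) :
    CAU_D X α = 0 := by
  unfold Function.Injective at h
  push Not at h
  obtain ⟨i, j, hij, hne⟩ := h
  refine Matrix.det_zero_of_row_eq hne ?_
  funext l
  simp [hij]

theorem CAU_det (R : Type) [CommRing R] {m : ℕ} (M : Matrix (Fin m) (Fin m) R) :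
    M.det = ∑ σ : Equiv.Perm (Fin m), ((Equiv.Perm.sign σ : ℤ) : R) * ∏ i, M i (σ i) := by
  rw [← Matrix.det_transpose, Matrix.det_apply']
  rfl

/-- The product with the Vandermonde determinant. -/
theorem CAU_vdm (X : Multiset ℂ) {m : ℕ} (c : Fin m → ℂ) (k : ℕ) :
    hs k (X.bind fun a => Finset.univ.val.map fun j => a * c j) *
      (Matrix.of fun i j : Fin m => c i ^ (m - 1 - (j : ℕ))).det =
    ∑ α ∈ Finset.piAntidiag (Finset.univ : Finset (Fin m)) (k + ∑ j : Fin m, (m - 1 - (j : ℕ))),
      (∏ j, c j ^ α j) * CAU_D X α := by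
  set δ : Fin m → ℕ := fun j => m - 1 - (j : ℕ) with hδ
  set HX : PowerSeries ℂ := (X.map fun a => (PowerSeries.mk fun n => a ^ n : PowerSeries ℂ)).prod
    with hHX
  set M : Matrix (Fin m) (Fin m) (PowerSeries ℂ) := Matrix.of fun i j =>
    PowerSeries.rescale (c i) (PowerSeries.X ^ δ j * HX) with hM
  have ha : M.det = (∏ j, PowerSeries.rescale (c j) HX) * (PowerSeries.X ^ (∑ j, δ j) *
      PowerSeries.C (Matrix.of fun i j : Fin m => c i ^ δ j).det) := by
    have h1 : M = Matrix.of fun i j => PowerSeries.rescale (c i) HX *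
        (Matrix.of fun i j : Fin m => (PowerSeries.X : PowerSeries ℂ) ^ δ j *
          (Matrix.of fun i j : Fin m => PowerSeries.C (c i ^ δ j)) i j) i j := by
      ext1 i j
      rw [hM, Matrix.of_apply, Matrix.of_apply, Matrix.of_apply, Matrix.of_apply, map_mul,
        map_pow, PowerSeries.rescale_X, mul_pow, map_pow]
      ring
    rw [h1, Matrix.det_mul_column, Matrix.det_mul_row, Finset.prod_pow_eq_pow_sum]
    congr 2
    rw [RingHom.map_det]
    rfl
  have hb : PowerSeries.coeff (k + ∑ j, δ j) M.det =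
      hs k (X.bind fun a => Finset.univ.val.map fun j => a * c j) *
      (Matrix.of fun i j : Fin m => c i ^ δ j).det := by
    rw [ha, mul_left_comm, PowerSeries.coeff_X_pow_mul, mul_comm, PowerSeries.coeff_C_mul,
      mul_comm, ← CAU_prod]
    rfl
  rw [← hb, CAU_det, map_sum]
  have h2 : ∀ σ : Equiv.Perm (Fin m), PowerSeries.coeff (k + ∑ j, δ j)
      (((Equiv.Perm.sign σ : ℤ) : PowerSeries ℂ) * ∏ i, M i (σ i)) =
      ((Equiv.Perm.sign σ : ℤ) : ℂ) * ∑ l ∈ (Finset.univ : Finset (Fin m)).finsuppAntidiag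
        (k + ∑ j, δ j), ∏ i, (c i ^ l i * sz (fun k => hs k X) ((l i : ℤ) - (δ (σ i) : ℤ))) := by
    intro σ
    have h3 : ((Equiv.Perm.sign σ : ℤ) : PowerSeries ℂ) =
        PowerSeries.C ((Equiv.Perm.sign σ : ℤ) : ℂ) := by
      rw [map_intCast]
    rw [h3, PowerSeries.coeff_C_mul, PowerSeries.coeff_prod]
    congr 1
    refine Finset.sum_congr rfl fun l _ => Finset.prod_congr rfl fun i _ => ?_
    rw [hM, Matrix.of_apply, PowerSeries.coeff_rescale]
    congr 1
    rw [PowerSeries.coeff_X_pow_mul']
    unfold sz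
    split_ifs with h4 h5 h5
    · have h6 : ((l i : ℤ) - (δ (σ i) : ℤ)).toNat = l i - δ (σ i) := by omega
      rw [h6]
      rfl
    · omega
    · omega
    · rfl
  rw [Finset.sum_congr rfl fun σ _ => h2 σ]
  simp only [Finset.mul_sum]
  rw [Finset.sum_comm]
  refine Finset.sum_nbij' (fun l => ⇑l) (fun f => Finsupp.equivFunOnFinite.symm f) ?_ ?_ ?_ ?_ ?_
  · intro l hl
    rw [Finset.mem_finsuppAntidiag] at hl
    rw [Finset.mem_piAntidiag]
    exact ⟨hl.1, fun i _ => Finset.mem_univ i⟩
  · intro f hf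
    rw [Finset.mem_piAntidiag] at hf
    rw [Finset.mem_finsuppAntidiag]
    exact ⟨hf.1, Finset.subset_univ _⟩
  · intro l _
    ext i
    rfl
  · intro f _
    rfl
  · intro l _
    unfold CAU_D
    rw [CAU_det, Finset.mul_sum]
    refine Finset.sum_congr rfl fun σ _ => ?_
    rw [Finset.prod_mul_distrib]
    simp only [Matrix.of_apply]
    ring

theorem CAU_anti {m : ℕ} (β : Fin m → ℕ) (hβ : StrictAnti β) :
    ∀ d : ℕ, ∀ i j : Fin m, (i : ℕ) + d = j → β j + d ≤ β i := by
  intro d
  induction d with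
  | zero =>
    intro i j h
    have : i = j := Fin.ext (by omega)
    subst this
    omega
  | succ d ih =>
    intro i j h
    have hj := j.is_lt
    have h1 := ih i ⟨i + d, by omega⟩ rfl
    have h2 : β j < β ⟨i + d, by omega⟩ := hβ (by
      rw [Fin.lt_def]
      simp only
      omega)
    omega

theorem CAU_sum (X : Multiset ℂ) {m : ℕ} (c : Fin m → ℂ) (k : ℕ) (hfin : (Par m k).Finite) :
    ∑ α ∈ Finset.piAntidiag (Finset.univ : Finset (Fin m)) (k + ∑ j : Fin m, (m - 1 - (j : ℕ))),
      (∏ j, c j ^ α j) * CAU_D X α =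
    ∑ lam ∈ hfin.toFinset, schur lam X *
      (Matrix.of fun i j : Fin m => c i ^ (lam j + (m - 1 - (j : ℕ)))).det := by
  classical
  set δ : Fin m → ℕ := fun j => m - 1 - (j : ℕ) with hδ
  have h1 : ∀ lam : Fin m → ℕ, schur lam X * (Matrix.of fun i j : Fin m =>
      c i ^ (lam j + (m - 1 - (j : ℕ)))).det = ∑ σ : Equiv.Perm (Fin m),
        (∏ j, c j ^ ((fun i => lam i + δ i) ∘ σ) j) *
          CAU_D X ((fun i => lam i + δ i) ∘ σ) := by
    intro lam
    rw [CAU_det, Finset.mul_sum]
    refine Finset.sum_congr rfl fun σ _ => ?_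
    rw [CAU_D_perm]
    have h2 : CAU_D X (fun i => lam i + δ i) = schur lam X := by
      unfold CAU_D schur JT
      congr 1
      ext i j
      rw [Matrix.of_apply, Matrix.of_apply]
      congr 1
      have hi := i.is_lt
      have hj := j.is_lt
      simp only [hδ]
      omega
    rw [h2]
    simp only [Matrix.of_apply, Function.comp]
    ring
  rw [Finset.sum_congr rfl fun lam _ => h1 lam, ← Finset.sum_product']
  rw [← Finset.sum_filter_of_ne (s := Finset.piAntidiag (Finset.univ : Finset (Fin m))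
    (k + ∑ j : Fin m, (m - 1 - (j : ℕ)))) (p := fun α => Function.Injective α)
    (fun α _ h => by
      by_contra h2
      exact h (by rw [CAU_D_inj X α h2, mul_zero]))]
  symm
  have hanti : ∀ lam ∈ hfin.toFinset, StrictAnti fun i => lam i + δ i := by
    intro lam hl i j hij
    have h2 := (hfin.mem_toFinset.1 hl).1 hij.le
    have h3 : (i : ℕ) < j := hij
    have := j.is_lt
    simp only [hδ]
    omega
  refine Finset.sum_nbij (fun x => (fun i => x.1 i + δ i) ∘ x.2) ?_ ?_ ?_ ?_
  · rintro ⟨lam, σ⟩ hx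
    rw [Finset.mem_product] at hx
    have hl := hfin.mem_toFinset.1 hx.1
    rw [Finset.mem_filter, Finset.mem_piAntidiag]
    refine ⟨⟨?_, fun i _ => Finset.mem_univ i⟩, ?_⟩
    · simp only [Function.comp]
      rw [Equiv.sum_comp σ fun i => lam i + δ i, Finset.sum_add_distrib, hl.2]
    · exact (hanti lam hx.1).injective.comp σ.injective
  · rintro ⟨lam, σ⟩ hx ⟨lam', σ'⟩ hx' h
    rw [Finset.mem_coe, Finset.mem_product] at hx hx'
    have h2 : (fun i => lam i + δ i) ∘ σ = (fun i => lam' i + δ i) ∘ σ' := h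
    have h3 : (fun i => lam i + δ i) = fun i => lam' i + δ i := by
      refine ((hanti lam hx.1).range_inj (hanti lam' hx'.1)).1 ?_
      rw [← σ.surjective.range_comp (fun i => lam i + δ i), h2, σ'.surjective.range_comp]
    have h4 : lam = lam' := by
      funext i
      have h5 : lam i + δ i = lam' i + δ i := congrFun h3 i
      omega
    subst h4
    have h5 : σ = σ' := by
      ext1 i
      exact (hanti lam hx.1).injective (congrFun h2 i)
    rw [h5]
  · intro α hα
    rw [Finset.mem_coe, Finset.mem_filter, Finset.mem_piAntidiag] at hα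
    obtain ⟨⟨hs1, -⟩, hinj⟩ := hα
    set τ : Equiv.Perm (Fin m) := Fin.revPerm.trans (Tuple.sort α) with hτ
    have hβ : StrictAnti (α ∘ τ) := by
      have h2 : StrictMono (α ∘ Tuple.sort α) :=
        (Tuple.monotone_sort α).strictMono_of_injective (hinj.comp (Equiv.injective _))
      intro i j hij
      exact h2 (Fin.rev_lt_rev.2 hij)
    have hge : ∀ j, δ j ≤ (α ∘ τ) j := by
      intro j
      have hj := j.is_lt
      have := CAU_anti (α ∘ τ) hβ (m - 1 - (j : ℕ)) j ⟨m - 1, by omega⟩ (by
        simp only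
        omega)
      simp only [hδ]
      omega
    have hmem : (fun j => (α ∘ τ) j - δ j) ∈ Par m k := by
      refine ⟨fun i j hij => ?_, ?_⟩
      · have hi := i.is_lt
        have hj := j.is_lt
        have hij' : (i : ℕ) ≤ j := hij
        have := CAU_anti (α ∘ τ) hβ ((j : ℕ) - i) i j (by omega)
        have h3 := hge i
        have h4 := hge j
        simp only [hδ] at h3 h4 ⊢
        omega
      · have h2 : ∑ j, ((α ∘ τ) j - δ j) + ∑ j, δ j = k + ∑ j, δ j := by
          rw [← Finset.sum_add_distrib, Finset.sum_congr rfl fun j _ => Nat.sub_add_cancel (hge j)]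
          simp only [Function.comp]
          rw [Equiv.sum_comp τ α]
          exact hs1
        change ∑ j, ((α ∘ τ) j - δ j) = k
        omega
    refine ⟨((fun j => (α ∘ τ) j - δ j), τ.symm), ?_, ?_⟩
    · rw [Finset.mem_coe, Finset.mem_product]
      exact ⟨hfin.mem_toFinset.2 hmem, Finset.mem_univ _⟩
    · funext j
      have h2 := hge (τ.symm j)
      simp only [Function.comp] at h2 ⊢
      rw [Nat.sub_add_cancel h2]
      simp
  · rintro ⟨lam, σ⟩ _
    rfl

theorem s_CAU (hJTB : S_JTB) : S_CAU := by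
  intro k m X c
  have hfin : (Par m k).Finite := by
    refine Set.Finite.subset (Set.finite_Icc (fun _ => 0) (fun _ => k)) ?_
    intro lam h
    refine ⟨fun j => Nat.zero_le _, fun j => ?_⟩
    rw [← h.2]
    exact Finset.single_le_sum (f := lam) (fun _ _ => Nat.zero_le _) (Finset.mem_univ j)
  rw [finsum_mem_eq_finite_toFinset_sum _ hfin]
  have hinj : ∀ c : Fin m → ℂ, Function.Injective c →
      hs k (X.bind fun a => Finset.univ.val.map fun j => a * c j) =
      ∑ lam ∈ hfin.toFinset, schur lam X * schur lam (Finset.univ.val.map c) := by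
    intro c hc
    have h1 := CAU_vdm X c k
    rw [CAU_sum X c k hfin] at h1
    have h2 : (Matrix.of fun i j : Fin m => c i ^ (m - 1 - (j : ℕ))).det ≠ 0 := by
      have h3 : (Matrix.of fun i j : Fin m => c i ^ (m - 1 - (j : ℕ))) =
          (Matrix.vandermonde c).submatrix id Fin.revPerm := by
        ext i j
        rw [Matrix.of_apply, Matrix.submatrix_apply, Matrix.vandermonde_apply, Fin.revPerm_apply,
          Fin.val_rev, id]
        congr 1
        omega
      rw [h3, Matrix.det_permute']
      refine mul_ne_zero ?_ (Matrix.det_vandermonde_ne_zero_iff.2 hc)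
      rcases Int.units_eq_one_or (Equiv.Perm.sign (Fin.revPerm : Equiv.Perm (Fin m))) with h | h
      · rw [h]; simp
      · rw [h]; simp
    apply mul_right_cancel₀ h2
    rw [h1, Finset.sum_mul]
    refine Finset.sum_congr rfl fun lam _ => ?_
    rw [hJTB m c lam]
    ring
  have hc1 : ∀ n, Continuous fun c : Fin m → ℂ => hs n (Finset.univ.val.map c) := by
    intro n
    simp only [CAU_hs1]
    fun_prop
  have hc2 : ∀ lam : Fin m → ℕ, Continuous fun c : Fin m → ℂ =>
      schur lam (Finset.univ.val.map c) := by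
    intro lam
    unfold schur JT
    refine Continuous.matrix_det ?_
    refine continuous_matrix fun i j => ?_
    simp only [Matrix.of_apply]
    unfold sz
    split_ifs
    · exact hc1 _
    · exact continuous_const
  have hc3 : Continuous fun c : Fin m → ℂ =>
      hs k (X.bind fun a => Finset.univ.val.map fun j => a * c j) := by
    simp only [CAU_hs]
    fun_prop
  set g : ℂ → Fin m → ℂ := fun t j => c j + t * ((j : ℕ) : ℂ) with hg
  have hgc : Continuous g := by
    rw [hg]
    fun_prop
  have hbad : {t : ℂ | ¬ Function.Injective (g t)}.Finite := by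
    refine Set.Finite.subset (Set.finite_range fun p : Fin m × Fin m =>
      (c p.2 - c p.1) / (((p.1 : ℕ) : ℂ) - ((p.2 : ℕ) : ℂ))) ?_
    intro t ht
    have ht : ¬ Function.Injective (g t) := ht
    unfold Function.Injective at ht
    push Not at ht
    obtain ⟨i, j, hij, hne⟩ := ht
    refine ⟨(i, j), ?_⟩
    have h1 : (((i : ℕ) : ℂ) - ((j : ℕ) : ℂ)) ≠ 0 := by
      intro h
      apply hne
      apply Fin.ext
      have := sub_eq_zero.1 h
      exact_mod_cast this
    simp only
    rw [div_eq_iff h1]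
    have h2 : c i + t * ((i : ℕ) : ℂ) = c j + t * ((j : ℕ) : ℂ) := hij
    linear_combination -h2
  have hdense : Dense {t : ℂ | ¬ Function.Injective (g t)}ᶜ := hbad.countable.dense_compl ℂ
  have hext := Continuous.ext_on hdense (hc3.comp hgc)
    ((continuous_finsetSum hfin.toFinset fun lam _ =>
      (continuous_const (y := schur lam X)).mul (hc2 lam)).comp hgc) (by
    intro t ht
    have ht' : Function.Injective (g t) := by
      by_contra h
      exact ht h
    exact hinj (g t) ht')
  have h0 := congrFun hext 0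
  have hg0 : g 0 = c := by
    funext j
    simp [hg]
  simp only [Function.comp, hg0] at h0
  exact h0

end Pool.H66.SYM
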