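import Pool.Agent.H66.SYM.Basic

/-!
# Connectedness and congruences at special points
-/

namespace Pool.H66.SYM

open Filter Topology

theorem CN2_cont (A : Aut) (τ : A.Cusp) (m : ℕ) (F : A.Pt → ℂ) (hF : F ∈ A.RR τ m)
    (v : A.Pl) (g : A.W v) : Continuous (fun y : ℝ => F ⟨v, g, eu y⟩) := by
  unfold AData.RR at hF
  induction hF using AddSubgroup.closure_induction with
  | mem f hf =>
    obtain ⟨σ, _, rfl⟩ := hf
    have h : (fun y : ℝ => A.tr σ ⟨v, g, eu y⟩) =
        fun y : ℝ => ∑ n ∈ Finset.range (A.deg σ), ∑ i ∈ Finset.range (n + 1),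
          (A.loc σ v n g).sum * (Complex.exp y) ^ ((n : ℤ) - 2 * (i : ℤ)) := by
      funext y
      unfold AData.tr AData.eig
      rw [Multiset.sum_sum]
      refine Finset.sum_congr rfl fun n _ => ?_
      rw [Multiset.sum_sum]
      refine Finset.sum_congr rfl fun i _ => ?_
      rw [Multiset.sum_map_mul_right, Multiset.map_id']
      rfl
    rw [h]
    refine continuous_finsetSum _ fun n _ => continuous_finsetSum _ fun i _ => ?_
    refine continuous_const.mul ?_
    exact (Complex.continuous_exp.comp Complex.continuous_ofReal).zpow₀ _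
      fun y => Or.inl (Complex.exp_ne_zero _)
  | zero => exact continuous_const
  | add f g _ _ hf hg => exact hf.add hg
  | neg f _ hf => exact hf.neg

/-- Congruences modulo `l`. -/
def CN2_K (l : ℕ) (x x' : ℂ) : Prop :=
  IsIntegral ℤ x ∧ ∃ w, IsIntegral ℤ w ∧ x' = x ^ l + l * w

theorem CN2_pow (l : ℕ) (hl : l.Prime) (x y : ℂ) (hx : IsIntegral ℤ x) (hy : IsIntegral ℤ y) :
    ∃ r, IsIntegral ℤ r ∧ (x + y) ^ l = x ^ l + y ^ l + l * r := by
  obtain ⟨r, hr⟩ := exists_add_pow_prime_eq hl (⟨x, hx⟩ : integralClosure ℤ ℂ) ⟨y, hy⟩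
  refine ⟨(⟨x * y, hx.mul hy⟩ * r : integralClosure ℤ ℂ), ?_, ?_⟩
  · exact (⟨x * y, hx.mul hy⟩ * r : integralClosure ℤ ℂ).2
  · have := congrArg (fun z : integralClosure ℤ ℂ => (z : ℂ)) hr
    simp at this
    rw [this]
    push_cast
    ring

theorem CN2_add (l : ℕ) (hl : l.Prime) {x x' y y' : ℂ} (hx : CN2_K l x x')
    (hy : CN2_K l y y') : CN2_K l (x + y) (x' + y') := by
  obtain ⟨hx, w, hw, h⟩ := hx
  obtain ⟨hy, w', hw', h'⟩ := hy
  obtain ⟨r, hr, h''⟩ := CN2_pow l hl x y hx hy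
  refine ⟨hx.add hy, w + w' - r, (hw.add hw').sub hr, ?_⟩
  rw [h, h', h'']
  ring

theorem CN2_zero (l : ℕ) (hl : l.Prime) : CN2_K l 0 0 :=
  ⟨isIntegral_zero, 0, isIntegral_zero, by rw [zero_pow hl.ne_zero]; ring⟩

theorem CN2_neg (l : ℕ) (hl : l.Prime) {x x' : ℂ} (hx : CN2_K l x x') :
    CN2_K l (-x) (-x') := by
  obtain ⟨hx, w, hw, h⟩ := hx
  obtain ⟨r, hr, h''⟩ := CN2_pow l hl x (-x) hx hx.neg
  rw [add_neg_cancel, zero_pow hl.ne_zero] at h''
  refine ⟨hx.neg, r - w, hr.sub hw, ?_⟩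
  rw [h]
  linear_combination h''

theorem CN2_sum (l : ℕ) (hl : l.Prime) (X : Multiset ℂ) (hX : ∀ e ∈ X, IsIntegral ℤ e) :
    CN2_K l X.sum (X.map fun e => e ^ l).sum := by
  induction X using Multiset.induction_on with
  | empty => exact CN2_zero l hl
  | cons a X ih =>
    rw [Multiset.sum_cons, Multiset.map_cons, Multiset.sum_cons]
    refine CN2_add l hl ⟨hX a (Multiset.mem_cons_self a X), 0, isIntegral_zero, by ring⟩
      (ih fun e he => hX e (Multiset.mem_cons_of_mem he))

theorem CN2_int (l : ℕ) (hl : l.Prime) (i j B : ℕ) (hi : i ≤ B) (hj : j ≤ B) (hB : B < l)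
    (h : CN2_K l (i : ℂ) (j : ℂ)) : i = j := by
  obtain ⟨-, w, hw, h⟩ := h
  have hl0 : (l : ℂ) ≠ 0 := by exact_mod_cast hl.ne_zero
  have h1 : w = algebraMap ℚ ℂ (((j : ℚ) - (i : ℚ) ^ l) / l) := by
    rw [eq_ratCast]
    push_cast
    rw [eq_div_iff hl0, h]
    ring
  rw [h1] at hw
  have h2 : IsIntegral ℤ (((j : ℚ) - (i : ℚ) ^ l) / l) :=
    (isIntegral_algebraMap_iff (algebraMap ℚ ℂ).injective).1 hw
  obtain ⟨z, hz⟩ := IsIntegrallyClosed.isIntegral_iff.1 h2
  have hl0' : (l : ℚ) ≠ 0 := by exact_mod_cast hl.ne_zero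
  have h3 : ((j : ℤ) - (i : ℤ) ^ l) = z * l := by
    have : ((j : ℚ) - (i : ℚ) ^ l) = z * l := by
      rw [eq_div_iff hl0'] at hz
      rw [← hz]
      simp
    exact_mod_cast this
  have : Fact l.Prime := ⟨hl⟩
  have h4 : ((j : ZMod l) - (i : ZMod l) ^ l) = 0 := by
    have := congrArg (fun z : ℤ => (z : ZMod l)) h3
    push_cast at this
    rw [this]
    simp
  rw [ZMod.pow_card, sub_eq_zero] at h4
  have h5 := (ZMod.natCast_eq_natCast_iff' j i l).1 h4
  rw [Nat.mod_eq_of_lt (by omega), Nat.mod_eq_of_lt (by omega)] at h5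
  exact h5.symm

theorem s_CN2 (hBAS : S_BAS) : S_CN2 := by
  intro A τ m M hctx S F hF B hBM hB
  obtain ⟨hcard, -, hpow, -⟩ := hBAS A
  have heu : eu 0 = 1 := by
    ext
    simp [eu]
  -- connectedness
  have hcon : ∀ n y, n ∣ S.N → F (S.pt n y) = F ⟨S.v, S.t ^ n, 1⟩ := by
    intro n y hn
    have hc := CN2_cont A τ m F hF S.v (S.t ^ n)
    set T : Set ℂ := (fun i : ℕ => (i : ℂ)) '' Set.Iic B with hT
    have hfin : T.Finite := (Set.finite_Iic B).image _
    have hm : Set.MapsTo (fun y : ℝ => F ⟨S.v, S.t ^ n, eu y⟩) Set.univ T := by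
      intro y _
      obtain ⟨i, hi, h⟩ := hB n y hn
      exact ⟨i, hi, h.symm⟩
    have h := isPreconnected_univ.constant_of_mapsTo hfin.isDiscrete hc.continuousOn hm
      (Set.mem_univ y) (Set.mem_univ (0 : ℝ))
    rw [heu] at h
    exact h
  set p : A.Pt := ⟨S.v, S.t, 1⟩ with hp
  have hpp : ∀ n : ℕ, p.pow n = ⟨S.v, S.t ^ n, 1⟩ := by
    intro n
    change (⟨S.v, S.t ^ (n : ℤ), (1 : ℂˣ) ^ (n : ℤ)⟩ : A.Pt) = _
    rw [zpow_natCast, one_zpow]
  have hord : A.Ord τ p S.z := by
    have := S.ord 1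
    unfold AData.Ord
    rw [hp, this]
    simp
  have heN : ∀ z, (∃ d H, z ∈ A.Irr τ m d H) → ∀ e ∈ A.eig z p, e ^ S.N = 1 := by
    rintro z ⟨d, H, hz⟩ e he
    obtain ⟨a, _, rfl⟩ := hz.2 p S.z hord e he
    rw [← mon_pow]
    simp [S.z_pow, mon]
  have hK : ∀ (n l : ℕ), l.Prime → CN2_K l (F (p.pow n)) (F (p.pow (n * l : ℕ))) := by
    intro n l hl
    unfold AData.RR at hF
    clear hB hcon
    induction hF using AddSubgroup.closure_induction with
    | mem f hf =>
      obtain ⟨z, hz, rfl⟩ := hf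
      have h1 := CN2_sum l hl (A.eig z (p.pow n)) (by
        intro e he
        rw [hpow] at he
        obtain ⟨e', he', rfl⟩ := Multiset.mem_map.1 he
        refine IsIntegral.of_pow S.N_pos ?_
        simp only [zpow_natCast]
        rw [← pow_mul, mul_comm, pow_mul, heN z hz e' he', one_pow]
        exact isIntegral_one)
      have h2 : ((A.eig z (p.pow n)).map fun e => e ^ l).sum = A.tr z (p.pow (n * l : ℕ)) := by
        unfold AData.tr
        rw [hpow, hpow, Multiset.map_map]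
        congr 1
        refine Multiset.map_congr rfl fun e _ => ?_
        simp only [Function.comp, zpow_natCast]
        rw [pow_mul]
      rw [h2] at h1
      exact h1
    | zero => exact CN2_zero l hl
    | add f g _ _ hf hg => exact CN2_add l hl hf hg
    | neg f _ hf => exact CN2_neg l hl hf
  have hdiv : ∀ d n : ℕ, n * d = S.N → F (p.pow n) = F (p.pow S.N) := by
    intro d
    induction d using Nat.strong_induction_on with
    | _ d ih =>
      intro n hn
      have hN := S.N_pos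
      rcases Nat.lt_or_ge 1 d with hd | hd
      · set l := d.minFac with hl
        have hlp : l.Prime := Nat.minFac_prime (by omega)
        obtain ⟨d', hd'⟩ := Nat.minFac_dvd d
        rw [← hl] at hd'
        have hd'pos : 0 < d' := by
          rcases Nat.eq_zero_or_pos d' with h | h
          · rw [h, mul_zero] at hd'
            omega
          · exact h
        have hlt : d' < d := by
          have := hlp.two_le
          rw [hd']
          nlinarith
        have h1 := ih d' hlt (n * l) (by rw [← hn, hd']; ring)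
        rw [← h1]
        have hlN : l ∣ S.N := ⟨n * d', by rw [← hn, hd']; ring⟩
        have hMl := S.N_pr l hlp hlN
        obtain ⟨i, hi, hi'⟩ := hB n 0 ⟨d, hn.symm⟩
        obtain ⟨j, hj, hj'⟩ := hB (n * l) 0 ⟨d', by rw [← hn, hd']; ring⟩
        rw [hcon n 0 ⟨d, hn.symm⟩, ← hpp] at hi'
        rw [hcon (n * l) 0 ⟨d', by rw [← hn, hd']; ring⟩, ← hpp] at hj'
        have h2 := hK n l hlp
        rw [hi', hj'] at h2
        rw [hi', hj', CN2_int l hlp i j B hi hj (by omega) h2]
      · have hd1 : d = 1 := by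
          rcases Nat.eq_zero_or_pos d with h | h
          · rw [h, mul_zero] at hn
            omega
          · omega
        rw [hd1, mul_one] at hn
        rw [hn]
  have hone : F (p.pow S.N) = F ⟨S.v, 1, 1⟩ := by
    have h0 : (⟨S.v, 1, 1⟩ : A.Pt) = p.pow 0 := by
      simp [AData.Pt.pow, hp]
    rw [h0]
    unfold AData.RR at hF
    clear hB hcon hK hdiv
    induction hF using AddSubgroup.closure_induction with
    | mem f hf =>
      obtain ⟨z, hz, rfl⟩ := hf
      unfold AData.tr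
      rw [hpow, hpow]
      congr 1
      refine Multiset.map_congr rfl fun e he => ?_
      rw [zpow_natCast, heN z hz e he, zpow_zero]
    | zero => rfl
    | add f g _ _ hf hg =>
      rw [Pi.add_apply, Pi.add_apply, hf, hg]
    | neg f _ hf =>
      rw [Pi.neg_apply, Pi.neg_apply, hf]
  intro n y hn
  obtain ⟨d, hd⟩ := hn
  rw [hcon n y ⟨d, hd⟩, ← hpp, hdiv d n hd.symm, hone]

end Pool.H66.SYM
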