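import Pool.Agent.H66.SYM.Basic

/-!
# Existence of good cuspidal representations
-/

namespace Pool.H66.SYM

open Filter Topology

theorem GOO_eu_zero : eu 0 = 1 := by
  ext
  simp [eu]

theorem GOO_eu_log : (eu (Real.log 2) : ℂ) = 2 := by
  unfold eu
  rw [Units.val_mk0, ← Complex.ofReal_exp, Real.exp_log (by norm_num)]
  norm_num

theorem GOO_ord {A : Aut} {τ : A.Cusp} {m M : ℕ} (S : Spec A τ m M) : A.Ord τ S.p S.c :=
  S.ord (eu S.y)

theorem GOO_ne (hBAS : S_BAS) {A : Aut} {τ : A.Cusp} {m : ℕ} {p : A.Pt} {c : Fin m → ℂ}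
    (h : A.Ord τ p c) (j : Fin m) : c j ≠ 0 := by
  intro h0
  apply (hBAS A).2.1 τ p
  rw [h, Multiset.mem_map]
  exact ⟨j, Finset.mem_univ_val j, h0⟩

/-- The stabiliser of a multiset of weights. -/
def GOO_stab {m : ℕ} (B : Multiset (Fin m → ℤ)) : Subgroup (Equiv.Perm (Fin m)) where
  carrier := {σ | (B.map fun a => a ∘ σ) = B}
  mul_mem' := by
    intro σ ρ hσ hρ
    simp only [Set.mem_ofPred_eq] at *
    have h1 : (B.map fun a : Fin m → ℤ => a ∘ (σ * ρ : Equiv.Perm (Fin m))) =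
        (B.map fun a => a ∘ σ).map fun a => a ∘ ρ := by
      rw [Multiset.map_map]
      rfl
    rw [h1, hσ, hρ]
  one_mem' := by
    simp
  inv_mem' := by
    intro σ hσ
    simp only [Set.mem_ofPred_eq] at *
    have h1 := congrArg (Multiset.map fun a : Fin m → ℤ => a ∘ (σ⁻¹ : Equiv.Perm (Fin m))) hσ
    rw [Multiset.map_map] at h1
    rw [← h1]
    refine (Multiset.map_congr rfl fun a _ => ?_).trans (Multiset.map_id' B)
    funext j
    simp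

theorem GOO_mem {m : ℕ} {B : Multiset (Fin m → ℤ)} {σ : Equiv.Perm (Fin m)} :
    σ ∈ GOO_stab B ↔ (B.map fun a => a ∘ σ) = B := Iff.rfl

theorem GOO_conj {m : ℕ} {B : Multiset (Fin m → ℤ)} {σ ρ : Equiv.Perm (Fin m)}
    (h : ((B.map fun a => a ∘ σ).map fun a => a ∘ ρ) = B.map fun a => a ∘ σ) :
    σ * ρ * σ⁻¹ ∈ GOO_stab B := by
  rw [GOO_mem]
  have h1 := congrArg (Multiset.map fun a : Fin m → ℤ => a ∘ (σ⁻¹ : Equiv.Perm (Fin m))) h
  rw [Multiset.map_map, Multiset.map_map, Multiset.map_map] at h1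
  have h2 : (B.map ((fun a : Fin m → ℤ => a ∘ (σ⁻¹ : Equiv.Perm (Fin m))) ∘
      fun a : Fin m → ℤ => a ∘ σ)) = B := by
    refine (Multiset.map_congr rfl fun a _ => ?_).trans (Multiset.map_id' B)
    funext j
    simp
  rw [h2] at h1
  rw [← h1]
  conv_lhs => rw [h1]
  rfl

theorem GOO_count {m : ℕ} {B : Multiset (Fin m → ℤ)} {σ : Equiv.Perm (Fin m)}
    (h : (B.map fun a => a ∘ σ) = B) (b : Fin m → ℤ) : B.count (b ∘ σ) = B.count b := by
  conv_lhs => rw [← h]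
  have hinj : Function.Injective fun a : Fin m → ℤ => a ∘ σ := by
    intro a b hab
    funext j
    have := congrFun hab (σ.symm j)
    simpa using this
  exact Multiset.count_map_eq_count' _ _ hinj b

theorem s_GOO (hLIM : S_LIM) (hTMP : S_TMP) (hLMB : S_LMB) (hPEX : S_PEX) (hSTT : S_STT)
    (hSTS : S_STS) (hGRP : S_GRP) (hBAS : S_BAS) : S_GOO := by
  intro A hsym m H F hm
  obtain ⟨M₀, hM₀⟩ := hLMB m H
  set M : ℕ := max M₀ (4 * H + 4) with hM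
  obtain ⟨τ, hdeg, ⟨θ, hθ, hθ'⟩, ⟨γ, hγ, v₁, t₁, f₁, q₁, N₁, z₁, hab₁, hF₁, hf₁, hN₁, hNp₁,
    hord₁, hzN₁, hzq₁, hgen₁⟩, ⟨δ, k, hk, hδ, v₂, t₂, f₂, q₂, N₂, z₂, hab₂, hF₂, hf₂, hN₂,
    hNp₂, hord₂, hzN₂, hzq₂, hgen₂⟩, v₃, t₃, N₃, z₃, i₀, i₁, ε, hi, hzi, hε₀, hε₁, hε, hN₃,
    hNp₃, hord₃, hzN₃, hgen₃⟩ := A.glob m M F hm
  have hctx : Ctx A τ m M := ⟨hm, hdeg, hsym, θ, hθ, hθ'⟩
  have hLim := hLIM A τ m M hctx
  -- the special points
  let S₁ : Spec A τ m M :=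
    { v := v₁, t := t₁, N := N₁, z := z₁, ε := 0, y := 0, N_pos := hN₁, N_pr := hNp₁
      ord := fun s => by rw [hord₁ s]; simp
      z_pow := hzN₁
      gen := by simpa using hgen₁ }
  let S₂ : Spec A τ m M :=
    { v := v₂, t := t₂, N := N₂, z := z₂, ε := 0, y := 0, N_pos := hN₂, N_pr := hNp₂
      ord := fun s => by rw [hord₂ s]; simp
      z_pow := hzN₂
      gen := by simpa using hgen₂ }
  let S₃ : Spec A τ m M :=
    { v := v₃, t := t₃, N := N₃, z := z₃, ε := ε, y := Real.log 2, N_pos := hN₃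
      N_pr := hNp₃
      ord := hord₃
      z_pow := hzN₃
      gen := by rw [GOO_eu_log]; exact hgen₃ }
  have hHM : 4 * H + 4 ≤ M := le_max_right _ _
  have hc₁ : S₁.c = z₁ := by funext j; simp [S₁, Spec.c]
  have hp₁ : S₁.p = ⟨v₁, t₁, 1⟩ := by
    simp only [S₁, Spec.p]
    rw [GOO_eu_zero]
  refine ⟨τ, hdeg, fun d H' z hz => hTMP A τ m M hctx d H' z hz, v₁, t₁, z₁, hab₁, hF₁, ?_, ?_,
    hgen₁.mono (by omega), ?_⟩
  · rw [← hp₁, ← hc₁]
    exact GOO_ord S₁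
  · intro j
    rw [← hc₁]
    exact GOO_ne hBAS (GOO_ord S₁) j
  intro d y hy
  obtain ⟨B₁, hB₁⟩ := (hPEX A τ m d H y hy S₁.p S₁.c (GOO_ord S₁)).1
  obtain ⟨B₂, hB₂⟩ := (hPEX A τ m d H y hy S₂.p S₂.c (GOO_ord S₂)).1
  obtain ⟨B₃, hB₃⟩ := (hPEX A τ m d H y hy S₃.p S₃.c (GOO_ord S₃)).1
  obtain ⟨σ₂, hσ₂⟩ := hM₀ A τ M (le_max_left _ _) hctx hLim d y hy S₁ S₂ B₁ B₂ hB₁ hB₂
  obtain ⟨σ₃, hσ₃⟩ := hM₀ A τ M (le_max_left _ _) hctx hLim d y hy S₁ S₃ B₁ B₃ hB₁ hB₃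
  have h1 : (B₁.map fun a => a ∘ γ) = B₁ :=
    hSTT A τ m M S₁ hdeg rfl rfl f₁ q₁ γ hf₁ hzq₁ d H (by omega) y hy B₁ hB₁
  have h2 : (B₂.map fun a => a ∘ δ) = B₂ :=
    hSTT A τ m M S₂ hdeg rfl rfl f₂ q₂ δ hf₂ hzq₂ d H (by omega) y hy B₂ hB₂
  have hlog : S₃.y ≠ 0 := (Real.log_pos (by norm_num)).ne'
  obtain ⟨h3, h4⟩ := hSTS A τ m M S₃ hdeg i₀ i₁ hi hzi hε₀ hε₁ hε hlog d H hHM y hy B₃ hB₃
  -- the stabiliser
  have hG : GOO_stab B₁ = ⊤ := by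
    refine hGRP m (GOO_stab B₁) γ (σ₂ * δ * σ₂⁻¹) (σ₂ k) (σ₃ i₀) (σ₃ i₁) h1 hγ ?_ ?_ ?_ ?_ ?_
    · refine GOO_conj ?_
      rw [← hσ₂]
      exact h2
    · simp [hk]
    · intro i j hik hjk
      have hi' : σ₂⁻¹ i ≠ k := by
        intro h
        apply hik
        rw [← h]
        simp
      have hj' : σ₂⁻¹ j ≠ k := by
        intro h
        apply hjk
        rw [← h]
        simp
      obtain ⟨n, hn⟩ := hδ _ _ hi' hj'
      refine ⟨n, ?_⟩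
      rw [conj_pow]
      simp only [Equiv.Perm.coe_mul, Function.comp_apply]
      rw [hn]
      simp
    · exact fun h => hi (σ₃.injective h)
    · rw [Equiv.swap_apply_apply]
      refine GOO_conj ?_
      rw [← hσ₃]
      exact h3
  have hinv : ∀ σ : Equiv.Perm (Fin m), (B₁.map fun a => a ∘ σ) = B₁ := by
    intro σ
    have : σ ∈ GOO_stab B₁ := by rw [hG]; trivial
    exact this
  have hB₃₁ : B₃ = B₁ := by rw [hσ₃, hinv]
  rw [hB₃₁] at h4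
  refine ⟨B₁, ?_, hinv, ?_⟩
  · rw [hp₁, hc₁] at hB₁
    exact hB₁
  · intro b i j hij hb
    obtain ⟨σ, hσ₀, hσ₁⟩ : ∃ σ : Equiv.Perm (Fin m), σ i₀ = i ∧ σ i₁ = j := by
      refine ⟨Equiv.swap (Equiv.swap i₀ i i₁) j * Equiv.swap i₀ i, ?_, ?_⟩
      · rw [Equiv.Perm.mul_apply, Equiv.swap_apply_left]
        refine Equiv.swap_apply_of_ne_of_ne ?_ hij
        intro h
        have h5 := congrArg (Equiv.swap i₀ i) h
        rw [Equiv.swap_apply_self, Equiv.swap_apply_right] at h5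
        exact hi h5
      · rw [Equiv.Perm.mul_apply, Equiv.swap_apply_left]
    have h5 := h4 (b ∘ σ) (by simpa [hσ₀, hσ₁] using hb)
    rw [GOO_count (hinv σ)] at h5
    have h6 : b ∘ σ - ee i₀ + ee i₁ = (b - ee i + ee j) ∘ σ := by
      funext l
      have h7 : ∀ a b' : Fin m, σ a = b' → (ee a : Fin m → ℤ) l = (ee b' : Fin m → ℤ) (σ l) := by
        intro a b' hab
        unfold ee
        rw [← hab]
        by_cases hla : l = a
        · subst hla; simp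
        · rw [Pi.single_eq_of_ne hla, Pi.single_eq_of_ne (fun h => hla (σ.injective h))]
      simp only [Pi.add_apply, Pi.sub_apply, Function.comp_apply]
      rw [h7 i₀ i hσ₀, h7 i₁ j hσ₁]
    rw [h6, GOO_count (hinv σ)] at h5
    exact h5

end Pool.H66.SYM
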