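import Pool.Agent.H66.SYM.Basic

/-!
# Elementary properties of the complete symmetric functions
-/

namespace Pool.H66.SYM

theorem HSB_geo (a : ℂ) : (PowerSeries.mk fun n => a ^ n : PowerSeries ℂ) =
    1 + PowerSeries.C a * PowerSeries.X * (PowerSeries.mk fun n => a ^ n : PowerSeries ℂ) := by
  ext n
  rcases n with _ | n
  · rw [mul_assoc, map_add, PowerSeries.coeff_C_mul]
    simp
  · rw [mul_assoc, map_add, PowerSeries.coeff_C_mul, PowerSeries.coeff_succ_X_mul]
    simp [PowerSeries.coeff_one, pow_succ, mul_comm]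

theorem s_HSB : S_HSB := by
  have h0 : ∀ X, hs 0 X = 1 := by
    intro X
    unfold hs
    rw [PowerSeries.coeff_zero_eq_constantCoeff_apply, map_multiset_prod, Multiset.map_map]
    refine Multiset.prod_eq_one fun x hx => ?_
    obtain ⟨a, _, rfl⟩ := Multiset.mem_map.1 hx
    simp [← PowerSeries.coeff_zero_eq_constantCoeff_apply]
  have hc : ∀ k a X, hs (k + 1) (a ::ₘ X) = hs (k + 1) X + a * hs k (a ::ₘ X) := by
    intro k a X
    unfold hs
    simp only [Multiset.map_cons, Multiset.prod_cons]
    conv_lhs => rw [HSB_geo a]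
    rw [add_mul, one_mul, map_add, mul_assoc, mul_assoc, PowerSeries.coeff_C_mul,
      PowerSeries.coeff_succ_X_mul]
  refine ⟨h0, ?_, ?_, hc, ?_⟩
  · intro k
    simp [hs, PowerSeries.coeff_one]
  · intro X
    induction X using Multiset.induction_on with
    | empty => simp [hs, PowerSeries.coeff_one]
    | cons a X ih => rw [hc, h0, ih, Multiset.sum_cons]; ring
  · intro k X Y
    unfold hs
    rw [Multiset.map_add, Multiset.prod_add, PowerSeries.coeff_mul,
      Finset.Nat.sum_antidiagonal_eq_sum_range_succ_mk]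

end Pool.H66.SYM
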