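import Pool.Agent.H66.T5.XTR

/-!
# Linear independence of traces
-/

namespace Pool.H66.SYM

open Filter Topology

theorem IND_pow (hBAS : S_BAS) (A : Aut) (R : Multiset A.Cusp) (q : A.Pt) (n : ℕ) :
    ((A.eigs R q).map fun a => a ^ n).sum = (A.eigs R (q.pow n)).sum := by
  obtain ⟨-, -, hpow, -⟩ := hBAS A
  induction R using Multiset.induction_on with
  | empty => simp [AData.eigs]
  | cons σ R ih =>
    rw [eigs_cons, eigs_cons, Multiset.map_add, Multiset.sum_add, Multiset.sum_add, ih, hpow]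
    simp

theorem IND_ne (hBAS : S_BAS) (A : Aut) (R : Multiset A.Cusp) (q : A.Pt) :
    (0 : ℂ) ∉ A.eigs R q := by
  obtain ⟨-, hne, -, -⟩ := hBAS A
  intro h
  obtain ⟨σ, _, h⟩ := (mem_eigs A.toAData).1 h
  exact hne σ q h

open Classical in
theorem s_IND (hBAS : S_BAS) (hVAN : S_VAN) : S_IND := by
  intro A
  have h1 : ∀ P Q : Multiset A.Cusp, (∀ v, ∀ n : ℕ, 1 ≤ n →
      (A.eigs P ((A.frob v).pow n)).sum = (A.eigs Q ((A.frob v).pow n)).sum) → P = Q := by
    intro P Q h
    refine A.smo P Q (Eventually.of_forall fun v => ?_)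
    refine XTR_psum hVAN _ _ (IND_ne hBAS A P _) (IND_ne hBAS A Q _) fun n hn => ?_
    rw [IND_pow hBAS, IND_pow hBAS]
    exact h v n hn
  refine ⟨h1, fun k hk => ?_⟩
  set P : Multiset A.Cusp := ∑ z ∈ k.support, (k z).toNat • {z} with hP
  set Q : Multiset A.Cusp := ∑ z ∈ k.support, (-k z).toNat • {z} with hQ
  have htr : ∀ (f : A.Cusp → ℕ) (s : Finset A.Cusp) (p : A.Pt),
      (A.eigs (∑ z ∈ s, f z • {z}) p).sum = ∑ z ∈ s, (f z : ℂ) * A.tr z p := by
    intro f s p
    rw [sum_eigs, ← Multiset.coe_mapAddMonoidHom, map_sum, ← Multiset.coe_sumAddMonoidHom,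
      map_sum]
    refine Finset.sum_congr rfl fun z _ => ?_
    rw [map_nsmul, map_nsmul]
    simp
  have hcount : ∀ (f : A.Cusp → ℕ) (s : Finset A.Cusp) (z : A.Cusp), z ∈ s →
      (∑ z ∈ s, f z • ({z} : Multiset A.Cusp)).count z = f z := by
    intro f s z hz
    rw [Multiset.count_sum', Finset.sum_eq_single z]
    · simp
    · intro w _ hw
      simp [hw.symm]
    · intro h; exact absurd hz h
  have hPQ : P = Q := by
    refine h1 P Q fun v n hn => ?_
    rw [hP, hQ, htr, htr, ← sub_eq_zero, ← Finset.sum_sub_distrib]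
    rw [← hk v n hn, Finsupp.sum]
    refine Finset.sum_congr rfl fun z _ => ?_
    rw [← sub_mul]
    congr 1
    have h2 : ((k z).toNat : ℤ) - ((-k z).toNat : ℤ) = k z := Int.toNat_sub_toNat_neg (k z)
    exact_mod_cast congrArg (fun x : ℤ => (x : ℂ)) h2
  ext z
  by_contra hz
  have hz' : z ∈ k.support := Finsupp.mem_support_iff.2 hz
  have h3 := congrArg (Multiset.count z) hPQ
  rw [hP, hQ, hcount _ _ z hz', hcount _ _ z hz'] at h3
  have h2 : ((k z).toNat : ℤ) - ((-k z).toNat : ℤ) = k z := Int.toNat_sub_toNat_neg (k z)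
  apply hz
  rw [← h2, h3]
  simp

end Pool.H66.SYM
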