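import Pool.Agent.H66.SYM.Basic

/-!
# The bialternant formula
-/

namespace Pool.H66.SYM

theorem JTB_geo (a : ℂ) : (1 - PowerSeries.C a * PowerSeries.X) *
    (PowerSeries.mk fun n => a ^ n : PowerSeries ℂ) = 1 := by
  have h : (PowerSeries.mk fun n => a ^ n : PowerSeries ℂ) =
    1 + PowerSeries.C a * PowerSeries.X * (PowerSeries.mk fun n => a ^ n : PowerSeries ℂ) := by
    ext n
    rcases n with _ | n
    · rw [mul_assoc, map_add, PowerSeries.coeff_C_mul]
      simp
    · rw [mul_assoc, map_add, PowerSeries.coeff_C_mul, PowerSeries.coeff_succ_X_mul]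
      simp [PowerSeries.coeff_one, pow_succ, mul_comm]
  rw [sub_mul, one_mul, sub_eq_iff_eq_add]
  exact h

/-- The generating series of the elementary symmetric functions, with signs. -/
noncomputable def JTB_E (Y : Multiset ℂ) : PowerSeries ℂ :=
  (Y.map fun b => 1 - PowerSeries.C b * PowerSeries.X).prod

theorem JTB_E_zero (Y : Multiset ℂ) : ∀ k, Y.card < k → PowerSeries.coeff k (JTB_E Y) = 0 := by
  induction Y using Multiset.induction_on with
  | empty =>
    intro k hk
    have : k ≠ 0 := by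
      simp at hk
      omega
    simp [JTB_E, PowerSeries.coeff_one, this]
  | cons b Y ih =>
    intro k hk
    rw [Multiset.card_cons] at hk
    obtain ⟨k, rfl⟩ : ∃ k', k = k' + 1 := ⟨k - 1, by omega⟩
    have h1 : JTB_E (b ::ₘ Y) = JTB_E Y - PowerSeries.C b * (PowerSeries.X * JTB_E Y) := by
      unfold JTB_E
      rw [Multiset.map_cons, Multiset.prod_cons]
      ring
    rw [h1, map_sub, PowerSeries.coeff_C_mul, PowerSeries.coeff_succ_X_mul, ih _ (by omega),
      ih _ (by omega)]
    ring

theorem JTB_EH (Y : Multiset ℂ) : JTB_E Y *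
    (Y.map fun a => (PowerSeries.mk fun n => a ^ n : PowerSeries ℂ)).prod = 1 := by
  induction Y using Multiset.induction_on with
  | empty => simp [JTB_E]
  | cons b Y ih =>
    unfold JTB_E at ih ⊢
    rw [Multiset.map_cons, Multiset.prod_cons, Multiset.map_cons, Multiset.prod_cons]
    rw [mul_mul_mul_comm, JTB_geo, ih, one_mul]

theorem JTB_sum (Y : Multiset ℂ) (a : ℂ) (m : ℕ) (hm : Y.card + 1 = m) (n : ℕ) :
    ∑ k ∈ Finset.range m, PowerSeries.coeff k (JTB_E Y) *
      sz (fun k => hs k (a ::ₘ Y)) ((n : ℤ) - (k : ℤ)) = a ^ n := by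
  have h1 : a ^ n = PowerSeries.coeff n (JTB_E Y *
      ((a ::ₘ Y).map fun a => (PowerSeries.mk fun n => a ^ n : PowerSeries ℂ)).prod) := by
    rw [Multiset.map_cons, Multiset.prod_cons, mul_left_comm, JTB_EH, mul_one,
      PowerSeries.coeff_mk]
  rw [h1, PowerSeries.coeff_mul, Finset.Nat.sum_antidiagonal_eq_sum_range_succ_mk]
  have h2 : ∑ k ∈ Finset.range m, PowerSeries.coeff k (JTB_E Y) *
      sz (fun k => hs k (a ::ₘ Y)) ((n : ℤ) - (k : ℤ)) =
      ∑ k ∈ Finset.range (m + (n + 1)), PowerSeries.coeff k (JTB_E Y) *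
      sz (fun k => hs k (a ::ₘ Y)) ((n : ℤ) - (k : ℤ)) := by
    refine Finset.sum_subset (Finset.range_mono (by omega)) fun k _ hk => ?_
    rw [Finset.mem_range, not_lt] at hk
    rw [JTB_E_zero Y k (by omega), zero_mul]
  have h3 : ∑ k ∈ Finset.range (n + 1), PowerSeries.coeff k (JTB_E Y) *
      sz (fun k => hs k (a ::ₘ Y)) ((n : ℤ) - (k : ℤ)) =
      ∑ k ∈ Finset.range (m + (n + 1)), PowerSeries.coeff k (JTB_E Y) *
      sz (fun k => hs k (a ::ₘ Y)) ((n : ℤ) - (k : ℤ)) := by
    refine Finset.sum_subset (Finset.range_mono (by omega)) fun k _ hk => ?_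
    rw [Finset.mem_range, not_lt] at hk
    unfold sz
    rw [if_neg (by omega), mul_zero]
  rw [h2, ← h3]
  refine Finset.sum_congr rfl fun k hk => ?_
  rw [Finset.mem_range] at hk
  congr 1
  unfold sz
  rw [if_pos (by omega)]
  have h4 : ((n : ℤ) - (k : ℤ)).toNat = n - k := by omega
  rw [h4]
  rfl

theorem s_JTB (hHSB : S_HSB) : S_JTB := by
  classical
  intro m c lam
  set X : Multiset ℂ := Finset.univ.val.map c with hX
  have hY : ∀ i, X = c i ::ₘ ((Finset.univ.erase i).val.map c) := by
    intro i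
    rw [← Multiset.map_cons, hX]
    congr 1
    rw [Finset.erase_val, Multiset.cons_erase (Finset.mem_univ i)]
  set M : Matrix (Fin m) (Fin m) ℂ := Matrix.of fun i l =>
    PowerSeries.coeff (m - 1 - (l : ℕ)) (JTB_E ((Finset.univ.erase i).val.map c)) with hM
  have key : ∀ nu : Fin m → ℕ, (Matrix.of fun i j : Fin m => c i ^ (nu j + (m - 1 - (j : ℕ)))) =
      M * (Matrix.of fun i j : Fin m => sz (fun k => hs k X)
        ((nu i : ℤ) - (i : ℤ) + (j : ℤ))).transpose := by
    intro nu
    ext i j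
    rw [Matrix.mul_apply, Matrix.of_apply]
    have hi := i.is_lt
    rw [← JTB_sum ((Finset.univ.erase i).val.map c) (c i) m (by
      rw [Multiset.card_map, Finset.card_val, Finset.card_erase_of_mem (Finset.mem_univ i),
        Finset.card_univ, Fintype.card_fin]
      omega) (nu j + (m - 1 - (j : ℕ))), ← hY i, Finset.sum_range,
      ← Equiv.sum_comp Fin.revPerm]
    refine Finset.sum_congr rfl fun l _ => ?_
    have hl := l.is_lt
    have hj := j.is_lt
    rw [hM, Matrix.of_apply, Matrix.transpose_apply, Matrix.of_apply, Fin.revPerm_apply,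
      Fin.val_rev]
    have h5 : m - (↑l + 1) = m - 1 - (l : ℕ) := by omega
    rw [h5]
    congr 2
    omega
  have hdet : ∀ nu : Fin m → ℕ,
      (Matrix.of fun i j : Fin m => c i ^ (nu j + (m - 1 - (j : ℕ)))).det =
      M.det * schur nu X := by
    intro nu
    rw [key nu, Matrix.det_mul, Matrix.det_transpose]
    rfl
  have h0 : schur (fun _ : Fin m => 0) X = 1 := by
    unfold schur JT
    rw [Matrix.det_of_isUpperTriangular]
    · refine Finset.prod_eq_one fun i _ => ?_
      rw [Matrix.of_apply]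
      have : ((0 : ℕ) : ℤ) - (i : ℤ) + (i : ℤ) = 0 := by ring
      rw [this]
      simp [sz, hHSB.1]
    · intro i j hij
      rw [Matrix.of_apply]
      unfold sz
      rw [if_neg]
      have h2 : (j : ℕ) < (i : ℕ) := hij
      change ¬ (0 ≤ ((0 : ℕ) : ℤ) - (i : ℤ) + (j : ℤ))
      omega
  have h1 := hdet (fun _ => 0)
  rw [h0, mul_one] at h1
  simp only [zero_add] at h1
  rw [hdet lam, h1, mul_comm]

end Pool.H66.SYM
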