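import Pool.Agent.H66.T5.XTR

/-!
# Weights of the constituents of `V_nu(τ)`
-/

namespace Pool.H66.SYM

open Filter Topology

open Classical in
theorem s_LBB (hLBA : S_LBA) (hVIC : S_VIC) (hPIE : S_PIE) (hKOS : S_KOS) (hREC : S_REC)
    (hIND : S_IND) (hTEN : S_TEN) (hRMU : S_RMU) (hRTA : S_RTA) (hBAS : S_BAS)
    (hVAN : S_VAN) : S_LBB := by
  intro A τ m H F v t c hm hdeg hsym htemp hG hV mu r hmu hmur hH x hx Q hQ z hz B hB
  obtain ⟨hcard, hne, hpow, hone, hdual, hmul, hdet, -⟩ := hBAS A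
  obtain ⟨T, hT⟩ := hTEN A hsym {τ} {x}
  obtain ⟨U, hU⟩ := hTEN A hsym (({τ} : Multiset A.Cusp).map A.dual) {z}
  have hT' : ∀ p, (A.eigs T p).sum = A.tr τ p * A.tr x p := by
    intro p
    rw [hT p, eigs_singleton, eigs_singleton]
    rfl
  have hU' : ∀ p, (A.eigs U p).sum = A.tr (A.dual τ) p * A.tr z p := by
    intro p
    rw [hU p, Multiset.map_singleton, eigs_singleton, eigs_singleton]
    rfl
  -- Pieri: z is in T
  have hzT : z ∈ T := by
    set S : Set (Fin m) := {i : Fin m | Antitone (mu + Pi.single i 1)} with hS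
    have hSf : S.Finite := Set.toFinite S
    have hQi : ∀ i : Fin m, ∃ R : Multiset A.Cusp, (i ∈ S → ∀ p, (A.eigs R p).sum =
        schur (mu + Pi.single i 1) (A.eig τ p)) ∧ (i = r → R = Q) := by
      intro i
      by_cases hir : i = r
      · subst hir
        exact ⟨Q, fun _ => hQ, fun _ => rfl⟩
      · by_cases hi : i ∈ S
        · obtain ⟨R, hR⟩ := hV _ hi
          exact ⟨R, fun _ => hR, fun h => absurd h hir⟩
        · exact ⟨0, fun h => absurd h hi, fun h => absurd h hir⟩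
    choose R hR hRr using hQi
    have hTR : T = ∑ i ∈ hSf.toFinset, R i := by
      refine (hIND A).1 T _ fun v' n _ => ?_
      set p : A.Pt := (A.frob v').pow n
      obtain ⟨c', hc'⟩ := exists_ord A.toAData ((hcard τ p).trans hdeg)
      have h1 : A.tr τ p = ∑ j, c' j := by
        unfold AData.tr
        rw [hc']
        rfl
      rw [hT' p, hx p, h1, hc', hPIE m c' mu hmu, finsum_mem_eq_finite_toFinset_sum _ hSf]
      have h2 : ∀ s : Finset (Fin m), (A.eigs (∑ i ∈ s, R i) p).sum =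
          ∑ i ∈ s, (A.eigs (R i) p).sum := by
        intro s
        induction s using Finset.induction_on with
        | empty => simp [AData.eigs]
        | insert i s hi ih =>
          rw [Finset.sum_insert hi, Finset.sum_insert hi, eigs_add, Multiset.sum_add, ih]
      rw [h2]
      refine Finset.sum_congr rfl fun i hi => ?_
      rw [hR i (hSf.mem_toFinset.1 hi) p, hc']
    have hrS : r ∈ hSf.toFinset := hSf.mem_toFinset.2 hmur
    rw [hTR, ← Finset.add_sum_erase _ _ hrS, Multiset.mem_add]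
    left
    rw [hRr r rfl]
    exact hz
  -- membership in `Irr`
  obtain ⟨-, hτI, hdualI, -, -, -⟩ := hRTA A τ m hm hdeg
  obtain ⟨hRMU1, hRMU2, -⟩ := hRMU A τ m hsym hm hdeg
  have hxI : x ∈ A.Irr τ m ((∑ j, mu j : ℕ) : ℤ) (∑ j, mu j + m) := by
    refine hVIC A τ m hm hdeg mu hmu {x} ?_ x (Multiset.mem_singleton_self x)
    intro p
    rw [eigs_singleton, ← hx p]
    rfl
  have hzI := hVIC A τ m hm hdeg _ hmur Q hQ z hz
  have htmp : ∀ w ∈ ({τ} : Multiset A.Cusp) + {x} + {z} + T + U, A.expo w = 0 ∧ A.Temp w := by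
    intro w hw
    simp only [Multiset.mem_add, Multiset.mem_singleton] at hw
    rcases hw with (((h | h) | h) | h) | h
    · rw [h]; exact htemp _ _ _ hτI
    · rw [h]; exact htemp _ _ _ hxI
    · rw [h]; exact htemp _ _ _ hzI
    · exact htemp _ _ _ (hRMU1 _ _ _ _ τ hτI x hxI T hT' w h)
    · exact htemp _ _ _ (hRMU1 _ _ _ _ (A.dual τ) (hdualI _ _ _ hτI) z hzI U hU' w h)
  have hrec := hREC A {τ} {x} {z} T U htmp hT hU
  have hsum : ∀ (R : Multiset A.Cusp) (w : A.Cusp),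
      ∑ᶠ w', (R.count w' * ({w} : Multiset A.Cusp).count w') = R.count w := by
    intro R w
    rw [finsum_eq_single _ w]
    · simp
    · intro w' hw'
      simp [hw']
  rw [hsum, hsum] at hrec
  have hxU : x ∈ U := by
    rw [← Multiset.one_le_count_iff_mem, ← hrec]
    exact Multiset.one_le_count_iff_mem.2 hzT
  -- the weight `mu` of `x`
  have hG' := hG
  obtain ⟨-, -, hord, hc0, hgen, -⟩ := hG'
  obtain ⟨K, hK, hKs, -, hK1, -, -⟩ := hKOS m mu hmu
  obtain ⟨B', hB', hBK⟩ := hLBA A τ m H F v t c hm hdeg hG mu hmu (by omega) K hK hKs {x} (by intro p; rw [eigs_singleton, ← hx p]; rfl)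
  have hmuB : (fun j => (mu j : ℤ)) ∈ B' x := by
    have h1 := hBK fun j => (mu j : ℤ)
    rw [hK1, Multiset.map_singleton, Multiset.sum_singleton] at h1
    rw [← Multiset.one_le_count_iff_mem]
    exact_mod_cast h1.ge
  have hmonx : mon c (fun j => (mu j : ℤ)) ∈ A.eig x ⟨v, t, 1⟩ := by
    rw [(hB' x (Multiset.mem_singleton_self x)).1.2]
    exact Multiset.mem_map_of_mem _ hmuB
  have hmonU : mon c (fun j => (mu j : ℤ)) ∈ A.eigs U ⟨v, t, 1⟩ :=
    (mem_eigs A.toAData).2 ⟨x, hxU, hmonx⟩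
  have hordd : A.Ord (A.dual τ) (⟨v, t, 1⟩ : A.Pt) fun j => (c j)⁻¹ := by
    unfold AData.Ord
    rw [hdual, hord, Multiset.map_map]
    rfl
  have hUz : ∀ p, (A.eigs U p).sum = (A.eigs {z} p).sum * A.tr (A.dual τ) p := by
    intro p
    rw [hU' p, eigs_singleton, mul_comm]
    rfl
  rw [XTR_prod hVAN hBAS A {z} U (A.dual τ) hUz ⟨v, t, 1⟩ _ hordd, Multiset.mem_bind] at hmonU
  obtain ⟨a, ha, hmonU⟩ := hmonU
  rw [eigs_singleton, hB.2, Multiset.mem_map] at ha
  obtain ⟨b, hb, rfl⟩ := ha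
  obtain ⟨i, -, hi⟩ := Multiset.mem_map.1 hmonU
  refine ⟨i, ?_⟩
  have hbW := hB.1 b hb
  have hmuW : (fun j => (mu j : ℤ)) ∈ Wt m ((∑ j, mu j : ℕ) : ℤ) (∑ j, mu j) := by
    refine ⟨by push_cast; rfl, ?_⟩
    simp
  have h1 : (fun j => (mu j : ℤ)) + ee i = b := by
    by_contra hne'
    have h2 : (fun j => (mu j : ℤ)) + ee i - b ≠ 0 := sub_ne_zero.2 hne'
    have h3 := Wt_sub (Wt_add hmuW (Wt_ee i)) hbW
    refine hgen _ h2 (by rw [h3.1]; ring) ?_ ?_
    · refine h3.2.trans ?_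
      have : ∑ j, mu j + 1 + H ≤ 2 * H := by omega
      exact_mod_cast this
    · have h4 : mon c ((fun j => (mu j : ℤ)) + ee i - b) = 1 := by
        rw [mon_sub c hc0, mon_add c hc0, mon_ee, ← hi, mul_assoc, inv_mul_cancel₀ (hc0 i),
          mul_one, div_self (mon_ne c hc0 b)]
      exact h4
  rw [h1]
  exact hb

end Pool.H66.SYM
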