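import Pool.Agent.H66.SYM.Basic

/-!
# Newton's identities
-/

namespace Pool.H66.SYM

theorem PNH_newton (hHSB : S_HSB) (X : Multiset ℂ) : ∀ n : ℕ, ((n + 1 : ℕ) : ℂ) * hs (n + 1) X =
    ∑ i ∈ Finset.range (n + 1), (X.map fun a => a ^ (i + 1)).sum * hs (n - i) X := by
  obtain ⟨h0, hz, -, hc, -⟩ := hHSB
  induction X using Multiset.induction_on with
  | empty =>
    intro n
    rw [hz]
    simp
  | cons a X ih =>
    intro n
    induction n with
    | zero =>
      rw [hc]
      have h1 := ih 0
      simp only [Finset.sum_range_succ, Finset.sum_range_zero, h0] at h1 ⊢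
      simp only [Multiset.map_cons, Multiset.sum_cons]
      simp at h1 ⊢
      rw [h1]
      ring
    | succ n ihn =>
      have h1 := ih (n + 1)
      have h2 : ∑ i ∈ Finset.range (n + 1 + 1), ((a ::ₘ X).map fun b => b ^ (i + 1)).sum *
          hs (n + 1 - i) (a ::ₘ X) =
          ∑ i ∈ Finset.range (n + 1 + 1), (X.map fun b => b ^ (i + 1)).sum *
            hs (n + 1 - i) (a ::ₘ X) +
          ∑ i ∈ Finset.range (n + 1 + 1), a ^ (i + 1) * hs (n + 1 - i) (a ::ₘ X) := by
        rw [← Finset.sum_add_distrib]
        refine Finset.sum_congr rfl fun i _ => ?_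
        rw [Multiset.map_cons, Multiset.sum_cons]
        ring
      have h3 : ∑ i ∈ Finset.range (n + 1 + 1), (X.map fun b => b ^ (i + 1)).sum *
            hs (n + 1 - i) (a ::ₘ X) =
          ∑ i ∈ Finset.range (n + 1 + 1), (X.map fun b => b ^ (i + 1)).sum *
            hs (n + 1 - i) X +
          a * ∑ i ∈ Finset.range (n + 1), (X.map fun b => b ^ (i + 1)).sum *
            hs (n - i) (a ::ₘ X) := by
        rw [Finset.sum_range_succ, Finset.sum_range_succ _ (n + 1), Finset.mul_sum]
        have h4 : ∑ i ∈ Finset.range (n + 1), (X.map fun b => b ^ (i + 1)).sum *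
            hs (n + 1 - i) (a ::ₘ X) = ∑ i ∈ Finset.range (n + 1),
            ((X.map fun b => b ^ (i + 1)).sum * hs (n + 1 - i) X +
              a * ((X.map fun b => b ^ (i + 1)).sum * hs (n - i) (a ::ₘ X))) := by
          refine Finset.sum_congr rfl fun i hi => ?_
          rw [Finset.mem_range] at hi
          have h5 : n + 1 - i = n - i + 1 := by omega
          rw [h5, hc]
          ring
        rw [h4, Finset.sum_add_distrib, Nat.sub_self, h0, h0]
        ring
      have h6 : ∑ i ∈ Finset.range (n + 1 + 1), a ^ (i + 1) * hs (n + 1 - i) (a ::ₘ X) =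
          a * hs (n + 1) (a ::ₘ X) +
            a * ∑ i ∈ Finset.range (n + 1), a ^ (i + 1) * hs (n - i) (a ::ₘ X) := by
        rw [Finset.sum_range_succ', Finset.mul_sum, add_comm]
        congr 1
        · simp
        · refine Finset.sum_congr rfl fun i _ => ?_
          rw [Nat.add_sub_add_right]
          ring
      have h7 : ∑ i ∈ Finset.range (n + 1), ((a ::ₘ X).map fun b => b ^ (i + 1)).sum *
          hs (n - i) (a ::ₘ X) =
          ∑ i ∈ Finset.range (n + 1), (X.map fun b => b ^ (i + 1)).sum *
            hs (n - i) (a ::ₘ X) +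
          ∑ i ∈ Finset.range (n + 1), a ^ (i + 1) * hs (n - i) (a ::ₘ X) := by
        rw [← Finset.sum_add_distrib]
        refine Finset.sum_congr rfl fun i _ => ?_
        rw [Multiset.map_cons, Multiset.sum_cons]
        ring
      rw [h2, h3, h6, ← h1]
      rw [h7] at ihn
      have h8 := hc (n + 1) a X
      rw [h8]
      push_cast at ihn ⊢
      linear_combination a * ihn + 0 * h8

theorem s_PNH (hHSB : S_HSB) : S_PNH := by
  intro n
  induction n using Nat.strong_induction_on with
  | _ n ih =>
    intro hn
    have hφ : ∀ i : ℕ, ∃ φ : List ℕ →₀ ℤ, 1 ≤ i → i < n → (∀ l ∈ φ.support, l.sum = i) ∧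
        ∀ X : Multiset ℂ, (X.map fun a => a ^ i).sum =
          φ.sum fun l c => (c : ℂ) * (l.map fun k => hs k X).prod := by
      intro i
      by_cases h : 1 ≤ i ∧ i < n
      · obtain ⟨φ, hφ⟩ := ih i h.2 h.1
        exact ⟨φ, fun _ _ => hφ⟩
      · exact ⟨0, fun h1 h2 => absurd ⟨h1, h2⟩ h⟩
    choose φ hφ using hφ
    obtain ⟨k, rfl⟩ : ∃ k, n = k + 1 := ⟨n - 1, by omega⟩
    refine ⟨Finsupp.single [k + 1] ((k : ℤ) + 1) - ∑ i ∈ Finset.range k,
      (φ (i + 1)).mapDomain (fun l => (k - i) :: l), ?_, ?_⟩
    · intro l hl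
      have h1 := Finsupp.support_sub hl
      rcases Finset.mem_union.1 h1 with h | h
      · have h2 := Finsupp.support_single_subset h
        rw [Finset.mem_singleton] at h2
        rw [h2]
        simp
      · have h2 := Finsupp.support_finsetSum h
        rw [Finset.mem_biUnion] at h2
        obtain ⟨i, hi, h3⟩ := h2
        rw [Finset.mem_range] at hi
        have h4 := Finsupp.mapDomain_support h3
        rw [Finset.mem_image] at h4
        obtain ⟨l', hl', rfl⟩ := h4
        rw [List.sum_cons, (hφ (i + 1) (by omega) (by omega)).1 l' hl']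
        omega
    · intro X
      rw [Finsupp.sum_sub_index (by intro a b c; push_cast; ring)]
      rw [← Finsupp.sum_finsetSum_index (by simp) (by intro a b c; push_cast; ring)]
      rw [Finsupp.sum_single_index (by simp)]
      have h1 := PNH_newton hHSB X k
      rw [Finset.sum_range_succ, Nat.sub_self, hHSB.1, mul_one] at h1
      have h2 : ∀ i ∈ Finset.range k, ((φ (i + 1)).mapDomain (fun l => (k - i) :: l)).sum
          (fun l c => (c : ℂ) * (l.map fun k => hs k X).prod) =
          (X.map fun a => a ^ (i + 1)).sum * hs (k - i) X := by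
        intro i hi
        rw [Finset.mem_range] at hi
        rw [Finsupp.sum_mapDomain_index (by simp) (by intro a b c; push_cast; ring),
          (hφ (i + 1) (by omega) (by omega)).2 X, Finsupp.sum, Finsupp.sum, Finset.sum_mul]
        refine Finset.sum_congr rfl fun l _ => ?_
        rw [List.map_cons, List.prod_cons]
        ring
      rw [Finset.sum_congr rfl h2]
      simp only [List.map_cons, List.map_nil, List.prod_cons, List.prod_nil, mul_one]
      push_cast at h1 ⊢
      rw [h1]
      ring

end Pool.H66.SYM
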