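import Pool.Agent.H66.SYM.Basic

/-!
# Symmetry and strings of the pattern at a Steinberg point
-/

namespace Pool.H66.SYM

open Classical in
/-- The number of strings through `w`. -/
noncomputable def STS_F (A : AData) (y : A.Cusp) (v : A.Pl) (t : A.W v) (w : ℂ) (D : ℤ) : ℕ :=
  ∑ n ∈ Finset.range (A.deg y), ∑ i ∈ Finset.range (n + 1),
    if (n : ℤ) - 2 * (i : ℤ) = D then (A.loc y v n t).count w else 0

open Classical in
theorem STS_count (A : AData) (y : A.Cusp) (v : A.Pl) (t : A.W v) (s : ℂˣ)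
    (hs0 : ‖(s : ℂ)‖ ≠ 1) (hn : ∀ n < A.deg y, ∀ a ∈ A.loc y v n t, ‖a‖ = 1) (w : ℂ)
    (hw : ‖w‖ = 1) (D : ℤ) :
    (A.eig y ⟨v, t, s⟩).count (w * (s : ℂ) ^ D) = STS_F A y v t w D := by
  unfold AData.eig STS_F
  rw [Multiset.count_sum']
  refine Finset.sum_congr rfl fun n hn' => ?_
  rw [Multiset.count_sum']
  refine Finset.sum_congr rfl fun i _ => ?_
  have hs1 : (s : ℂ) ≠ 0 := s.ne_zero
  split_ifs with h
  · rw [← h]
    exact Multiset.count_map_eq_count' (fun a : ℂ => a * (s : ℂ) ^ ((n : ℤ) - 2 * (i : ℤ)))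
      _ (mul_left_injective₀ (zpow_ne_zero _ hs1)) w
  · rw [Multiset.count_eq_zero]
    intro h1
    obtain ⟨a, ha, h2⟩ := Multiset.mem_map.1 h1
    apply h
    have h3 := congrArg norm h2
    rw [norm_mul, norm_mul, hn n (Finset.mem_range.1 hn') a ha, hw, one_mul, one_mul,
      norm_zpow, norm_zpow] at h3
    exact zpow_right_injective₀ (norm_pos_iff.2 hs1) hs0 h3

open Classical in
theorem STS_up (A : AData) (y : A.Cusp) (v : A.Pl) (t : A.W v) (w : ℂ) (D : ℤ) (hD : 1 ≤ D) :
    STS_F A y v t w D ≤ STS_F A y v t w (D - 2) := by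
  unfold STS_F
  refine Finset.sum_le_sum fun n _ => ?_
  rw [← Finset.sum_filter, ← Finset.sum_filter]
  refine (Finset.sum_le_sum_of_ne_zero (f := fun _ => (A.loc y v n t).count w)
    (s := ((Finset.range (n + 1)).filter fun i : ℕ => (n : ℤ) - 2 * (i : ℤ) = D).map
      ⟨fun i => i + 1, fun a b h => by simpa using h⟩) ?_).trans' ?_
  · intro i hi _
    obtain ⟨j, hj, rfl⟩ := Finset.mem_map.1 hi
    rw [Finset.mem_filter, Finset.mem_range] at hj ⊢
    simp only [Function.Embedding.coeFn_mk]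
    push_cast
    omega
  · rw [Finset.sum_map]

open Classical in
theorem STS_neg (A : AData) (y : A.Cusp) (v : A.Pl) (t : A.W v) (w : ℂ) (D : ℤ) :
    STS_F A y v t w (-D) = STS_F A y v t w D := by
  unfold STS_F
  refine Finset.sum_congr rfl fun n _ => ?_
  rw [← Finset.sum_range_reflect]
  refine Finset.sum_congr rfl fun i hi => ?_
  rw [Finset.mem_range] at hi
  have h : ((n + 1 - 1 - i : ℕ) : ℤ) = n - i := by omega
  rw [h]
  refine if_congr ?_ rfl rfl
  omega

theorem s_STS : S_STS := by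
  classical
  intro A τ m M S hdeg i₀ i₁ hne hz hε₀ hε₁ hε hy d H hM y hyI B hB
  have hz1 : ∀ j, ‖S.z j‖ = 1 := fun j => by
    have h1 := congrArg norm (S.z_pow j)
    rw [norm_pow, norm_one] at h1
    exact (pow_eq_one_iff_of_nonneg (norm_nonneg _) S.N_pos.ne').1 h1
  have hz0 : ∀ j, S.z j ≠ 0 := fun j h => by
    have := hz1 j
    rw [h, norm_zero] at this
    exact zero_ne_one this
  have hs0 : (eu S.y : ℂ) ≠ 0 := (eu S.y).ne_zero
  have hs1 : ‖(eu S.y : ℂ)‖ ≠ 1 := by
    have : ‖(eu S.y : ℂ)‖ = Real.exp S.y := by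
      simp [eu, Complex.norm_exp]
    rw [this]
    intro h
    exact hy (Real.exp_eq_one_iff _ |>.1 h)
  have hc0 : ∀ j, S.c j ≠ 0 := fun j => mul_ne_zero (hz0 j) (zpow_ne_zero _ hs0)
  -- the eigenvalues of `y` have absolute value 1
  have hn : ∀ n < A.deg y, ∀ a ∈ A.loc y S.v n S.t, ‖a‖ = 1 := by
    intro n hn a ha
    have h1 : a ∈ A.eig y ⟨S.v, S.t, 1⟩ := by
      unfold AData.eig
      rw [Multiset.mem_sum]
      refine ⟨n, Finset.mem_range.2 hn, ?_⟩
      rw [Multiset.mem_sum]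
      refine ⟨0, Finset.mem_range.2 (Nat.succ_pos n), ?_⟩
      rw [Multiset.mem_map]
      exact ⟨a, ha, by simp⟩
    obtain ⟨b, _, hb⟩ := hyI.2 ⟨S.v, S.t, 1⟩ S.z (by
      have := S.ord 1
      unfold AData.Ord
      rw [this]
      simp) a h1
    rw [hb]
    exact mon_norm S.z hz1 b
  -- values of monomials
  have hmon : ∀ b : Fin m → ℤ, mon S.c b = mon S.z b * (eu S.y : ℂ) ^ (b i₀ - b i₁) := by
    intro b
    unfold mon Spec.c
    simp only [mul_zpow, Finset.prod_mul_distrib]
    congr 1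
    rw [← Finset.prod_subset (Finset.subset_univ {i₀, i₁})]
    · rw [Finset.prod_pair hne, hε₀, hε₁, ← zpow_mul, ← zpow_mul, ← zpow_add₀ hs0]
      congr 1
      ring
    · intro j _ hj
      rw [Finset.mem_insert, Finset.mem_singleton, not_or] at hj
      rw [hε j hj.1 hj.2]
      simp
  have hcount : ∀ b ∈ Wt m d (H + 2), B.count b =
      STS_F A.toAData y S.v S.t (mon S.z b) (b i₀ - b i₁) := by
    intro b hb
    rw [← STS_count A.toAData y S.v S.t (eu S.y) hs1 hn (mon S.z b) (mon_norm S.z hz1 b),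
      ← hmon b]
    have h1 : A.eig y ⟨S.v, S.t, eu S.y⟩ = B.map (mon S.c) := hB.2
    rw [h1]
    have hinj : ∀ x ∈ Wt m d (H + 2), ∀ x' ∈ Wt m d (H + 2), mon S.c x = mon S.c x' → x = x' :=
      fun x hx x' hx' h => mon_inj hc0 (Gen.mono S.gen (by omega)) hx hx' h
    have hBW : ∀ x ∈ B, x ∈ Wt m d (H + 2) := fun x hx => Wt_mono (by omega) (hB.1 x hx)
    by_cases hbB : b ∈ B
    · exact (Multiset.count_map_eq_count (mon S.c) B
        (fun x hx x' hx' h => hinj x (hBW x hx) x' (hBW x' hx') h) b hbB).symm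
    · rw [Multiset.count_eq_zero_of_notMem hbB, eq_comm, Multiset.count_eq_zero]
      intro h2
      obtain ⟨x, hx, h3⟩ := Multiset.mem_map.1 h2
      exact hbB (hinj x (hBW x hx) b hb h3 ▸ hx)
  have hmem : ∀ b, b ∈ B → b ∈ Wt m d H := hB.1
  constructor
  · ext b
    have h1 : ((B.map fun a => a ∘ Equiv.swap i₀ i₁).count b) =
        B.count (b ∘ Equiv.swap i₀ i₁) := by
      have h2 : b = (fun a : Fin m → ℤ => a ∘ Equiv.swap i₀ i₁) (b ∘ Equiv.swap i₀ i₁) := by
        funext j
        simp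
      conv_lhs => rw [h2]
      refine Multiset.count_map_eq_count' (fun a : Fin m → ℤ => a ∘ Equiv.swap i₀ i₁) _ ?_ _
      intro a a' h
      funext j
      have := congrFun h (Equiv.swap i₀ i₁ j)
      simpa using this
    rw [h1]
    by_cases hb : b ∈ Wt m d (H + 2)
    · rw [hcount b hb, hcount _ (Wt_comp hb _)]
      have h3 : mon S.z (b ∘ Equiv.swap i₀ i₁) = mon S.z b := by
        have h4 : S.z ∘ Equiv.swap i₀ i₁ = S.z := by
          funext j
          simp only [Function.comp]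
          rcases eq_or_ne j i₀ with rfl | h5
          · rw [Equiv.swap_apply_left, hz]
          · rcases eq_or_ne j i₁ with rfl | h6
            · rw [Equiv.swap_apply_right, hz]
            · rw [Equiv.swap_apply_of_ne_of_ne h5 h6]
        rw [← mon_perm S.z (Equiv.swap i₀ i₁) b, h4]
      rw [h3]
      have h5 : (b ∘ Equiv.swap i₀ i₁) i₀ - (b ∘ Equiv.swap i₀ i₁) i₁ = -(b i₀ - b i₁) := by
        simp
      rw [h5, STS_neg]
    · rw [Multiset.count_eq_zero_of_notMem, Multiset.count_eq_zero_of_notMem]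
      · exact fun h => hb (Wt_mono (by omega) (hmem b h))
      · intro h
        apply hb
        have h2 := Wt_comp (hmem _ h) (Equiv.swap i₀ i₁)
        have h3 : (b ∘ Equiv.swap i₀ i₁) ∘ Equiv.swap i₀ i₁ = b := by
          funext j
          simp
        rw [h3] at h2
        exact Wt_mono (by omega) h2
  · intro b hb1
    by_cases hb : b ∈ B
    · have hbW := hmem b hb
      have hb2 : b - ee i₀ + ee i₁ ∈ Wt m d (H + 2) := by
        have h1 := Wt_add (Wt_sub hbW (Wt_ee i₀)) (Wt_ee i₁)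
        have h2 : d - 1 + 1 = d := by ring
        rw [h2] at h1
        exact h1
      rw [hcount b (Wt_mono (by omega) hbW), hcount _ hb2]
      have h3 : mon S.z (b - ee i₀ + ee i₁) = mon S.z b := by
        rw [mon_add S.z hz0, mon_sub S.z hz0, mon_ee, mon_ee, hz]
        exact div_mul_cancel₀ _ (hz0 i₁)
      have h4 : (b - ee i₀ + ee i₁) i₀ - (b - ee i₀ + ee i₁) i₁ = b i₀ - b i₁ - 2 := by
        simp only [Pi.add_apply, Pi.sub_apply, ee, Pi.single_eq_same,
          Pi.single_eq_of_ne hne, Pi.single_eq_of_ne hne.symm]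
        ring
      rw [h3, h4]
      exact STS_up A.toAData y S.v S.t _ _ hb1
    · rw [Multiset.count_eq_zero_of_notMem hb]
      exact Nat.zero_le _

end Pool.H66.SYM
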