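import Pool.Agent.H66.SYM.Basic

/-!
# Extraction of Schur functors
-/

namespace Pool.H66.SYM

open Filter Topology

theorem XTR_par_finite (m k : ℕ) : (Par m k).Finite := by
  refine Set.Finite.subset (Set.finite_Icc (fun _ => 0) (fun _ => k)) ?_
  intro lam h
  refine ⟨fun j => Nat.zero_le _, fun j => ?_⟩
  rw [← h.2]
  exact Finset.single_le_sum (f := lam) (fun _ _ => Nat.zero_le _) (Finset.mem_univ j)

/-- Multisets of nonzero complex numbers are determined by their power sums. -/
theorem XTR_psum (hVAN : S_VAN) (X Y : Multiset ℂ) (hX : (0 : ℂ) ∉ X) (hY : (0 : ℂ) ∉ Y)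
    (h : ∀ n : ℕ, 1 ≤ n → (X.map fun a => a ^ n).sum = (Y.map fun a => a ^ n).sum) : X = Y := by
  classical
  have hsum : ∀ (Z : Multiset ℂ) (n : ℕ), (Z.map fun a => a ^ n).sum =
      (Multiset.toFinsupp Z).sum fun e k => (k : ℂ) * e ^ n := by
    intro Z n
    rw [Finsupp.sum, Multiset.toFinsupp_support, Finset.sum_multiset_map_count]
    refine Finset.sum_congr rfl fun e _ => ?_
    rw [Multiset.toFinsupp_apply, nsmul_eq_mul]
  set φ : ℂ →₀ ℂ := (Multiset.toFinsupp X).mapRange (fun n : ℕ => (n : ℂ)) (by simp) -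
    (Multiset.toFinsupp Y).mapRange (fun n : ℕ => (n : ℂ)) (by simp) with hφ
  have h0 : φ = 0 := by
    refine hVAN φ ?_ ?_
    · intro e he h0
      subst h0
      rw [Finsupp.mem_support_iff] at he
      apply he
      simp [hφ, Multiset.count_eq_zero_of_notMem hX, Multiset.count_eq_zero_of_notMem hY]
    · intro n hn
      rw [hφ, Finsupp.sum_sub_index (by intro a b c; ring)]
      rw [Finsupp.sum_mapRange_index (by simp), Finsupp.sum_mapRange_index (by simp)]
      rw [← hsum, ← hsum, h n hn, sub_self]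
  ext e
  have h1 := DFunLike.congr_fun h0 e
  simp only [hφ, Finsupp.coe_sub, Pi.sub_apply, Finsupp.mapRange_apply,
    Multiset.toFinsupp_apply, Finsupp.coe_zero, Pi.zero_apply, sub_eq_zero] at h1
  exact_mod_cast h1

/-- The eigenvalues of a tensor product. -/
theorem XTR_prod (hVAN : S_VAN) (hBAS : S_BAS) (A : Aut) {m : ℕ} (P T : Multiset A.Cusp)
    (τ : A.Cusp) (hT : ∀ p, (A.eigs T p).sum = (A.eigs P p).sum * A.tr τ p) (p : A.Pt)
    (c : Fin m → ℂ) (hc : A.Ord τ p c) :
    A.eigs T p = (A.eigs P p).bind fun a => Finset.univ.val.map fun j => a * c j := by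
  obtain ⟨-, hne, hpow, -⟩ := hBAS A
  have hne' : ∀ (R : Multiset A.Cusp) (q : A.Pt), (0 : ℂ) ∉ A.eigs R q := by
    intro R q h
    obtain ⟨σ, _, h⟩ := (mem_eigs A.toAData).1 h
    exact hne σ q h
  have hcne : ∀ j, c j ≠ 0 := by
    intro j h
    apply hne τ p
    rw [hc, Multiset.mem_map]
    exact ⟨j, Finset.mem_univ_val j, h⟩
  have hpow' : ∀ (R : Multiset A.Cusp) (q : A.Pt) (n : ℕ),
      ((A.eigs R q).map fun a => a ^ n).sum = (A.eigs R (q.pow n)).sum := by
    intro R q n
    induction R using Multiset.induction_on with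
    | empty => simp [AData.eigs]
    | cons σ R ih =>
      rw [eigs_cons, eigs_cons, Multiset.map_add, Multiset.sum_add, Multiset.sum_add, ih, hpow]
      simp
  refine XTR_psum hVAN _ _ (hne' T p) ?_ ?_
  · intro h
    rw [Multiset.mem_bind] at h
    obtain ⟨a, ha, h⟩ := h
    rw [Multiset.mem_map] at h
    obtain ⟨j, _, h⟩ := h
    rcases mul_eq_zero.1 h with h | h
    · exact hne' P p (h ▸ ha)
    · exact hcne j h
  · intro n _
    rw [hpow', hT, ← hpow' P p n]
    have h1 : A.tr τ (p.pow n) = ∑ j, c j ^ n := by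
      unfold AData.tr
      rw [hpow, hc, Multiset.map_map]
      simp only [Function.comp_apply, zpow_natCast]
      rfl
    rw [h1, Multiset.map_bind, Multiset.sum_bind, ← Multiset.sum_map_mul_right]
    congr 1
    refine Multiset.map_congr rfl fun a _ => ?_
    rw [Multiset.map_map]
    simp only [Function.comp_apply, mul_pow, Finset.mul_sum]
    rfl

open Classical in
theorem s_XTR (hGOO : S_GOO) (hDCP : S_DCP) (hRSP : S_RSP) (hCAU : S_CAU) (hVIR : S_VIR)
    (hIND : S_IND) (hTEN : S_TEN) (hBAS : S_BAS) (hVAN : S_VAN) : S_XTR := by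
  intro A r hr hsym hsch lam hlam P
  set k : ℕ := ∑ j, lam j with hk
  have hmem : lam ∈ Par (r + 1) k := ⟨hlam, rfl⟩
  have hfin := XTR_par_finite (r + 1) k
  -- the virtual representations
  have hv : ∀ lam' : Fin (r + 1) → ℕ, ∃ b : A.Cusp →₀ ℤ, ∀ p,
      schur lam' (A.eigs P p) = b.sum fun z n => (n : ℂ) * A.tr z p := by
    intro lam'
    have h1 := (hVIR A hsym).2 (r + 1) lam' P
    unfold AData.VV at h1
    rw [← Set.image_univ, mem_closure_tr] at h1
    obtain ⟨b, -, hb⟩ := h1
    exact ⟨b, fun p => congrFun hb p⟩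
  choose b hb using hv
  set F : Finset A.Cusp := hfin.toFinset.biUnion fun lam' => (b lam').support with hF
  obtain ⟨H₀, hH₀⟩ := hDCP r k hr
  obtain ⟨τ, hτ⟩ := hGOO A hsym (r + 1) H₀ F (by omega)
  obtain ⟨v, t, habt, hFt, x, hx, hxx⟩ := hH₀ H₀ le_rfl A τ F hsym hsch hτ
  obtain ⟨w, hw, hinj⟩ := hRSP A F v t (hsym 2) habt hFt (Fin (r + 1) → ℕ) (Par (r + 1) k) x
    (fun i hi => (hx i hi).1) hxx
  obtain ⟨T, hT⟩ := hTEN A (hsym 2) P {τ}
  have hT' : ∀ p, (A.eigs T p).sum = (A.eigs P p).sum * A.tr τ p := by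
    intro p
    rw [hT p, eigs_singleton]
    rfl
  obtain ⟨R, hR⟩ := hsym k T
  -- the key identity
  have hkey : ∀ p, (R.map fun z => A.tr z p).sum =
      ∑ lam' ∈ hfin.toFinset, ∑ z ∈ (b lam').support, (b lam' z : ℂ) * A.tr (w z lam') p := by
    intro p
    obtain ⟨c, hc⟩ := exists_ord A.toAData ((hBAS A).1 τ p)
    have hcard : A.deg τ = r + 1 := hτ.1
    rw [← sum_eigs, hR p, XTR_prod hVAN hBAS A P T τ hT' p c hc]
    obtain ⟨c', hc'⟩ := exists_ord A.toAData (((hBAS A).1 τ p).trans hcard)
    have h2 : ((A.eigs P p).bind fun a => Finset.univ.val.map fun j => a * c j) =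
        (A.eigs P p).bind fun a => Finset.univ.val.map fun j => a * c' j := by
      refine Multiset.bind_congr fun a _ => ?_
      have h3 : (Finset.univ.val.map fun j => a * c j) =
          (Finset.univ.val.map c).map fun e => a * e := by
        rw [Multiset.map_map]; rfl
      have h4 : (Finset.univ.val.map fun j => a * c' j) =
          (Finset.univ.val.map c').map fun e => a * e := by
        rw [Multiset.map_map]; rfl
      rw [h3, h4, ← hc, ← hc']
    rw [h2, hCAU k (r + 1) (A.eigs P p) c', finsum_mem_eq_finite_toFinset_sum _ hfin]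
    refine Finset.sum_congr rfl fun lam' hl => ?_
    have hl' : lam' ∈ Par (r + 1) k := hfin.mem_toFinset.1 hl
    rw [← hc', ← (hx lam' hl').2 p, hb lam' p, Finsupp.sum, Finset.sum_mul]
    refine Finset.sum_congr rfl fun z hz => ?_
    rw [hw z (Finset.mem_biUnion.2 ⟨lam', hl, hz⟩) lam' hl' p, mul_assoc]
  -- comparison of coefficients
  set κ : A.Cusp →₀ ℤ := (Multiset.toFinsupp R).mapRange (fun n : ℕ => (n : ℤ)) (by simp) -
    ∑ lam' ∈ hfin.toFinset, ∑ z ∈ (b lam').support, Finsupp.single (w z lam') (b lam' z)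
    with hκ
  have hκ0 : κ = 0 := by
    refine (hIND A).2 κ fun v' n _ => ?_
    rw [hκ, Finsupp.sum_sub_index (by intro a b c; push_cast; ring), sub_eq_zero,
      Finsupp.sum_mapRange_index (by simp)]
    have h5 : ((Multiset.toFinsupp R).sum fun z n' => ((n' : ℤ) : ℂ) *
        A.tr z ((A.frob v').pow n)) = (R.map fun z => A.tr z ((A.frob v').pow n)).sum := by
      rw [Finsupp.sum, Multiset.toFinsupp_support, Finset.sum_multiset_map_count]
      refine Finset.sum_congr rfl fun e _ => ?_
      rw [Multiset.toFinsupp_apply, nsmul_eq_mul]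
      push_cast
      ring
    rw [h5, hkey]
    rw [← Finsupp.sum_finsetSum_index (by simp) (by intro a b c; push_cast; ring)]
    refine Finset.sum_congr rfl fun lam' _ => ?_
    rw [← Finsupp.sum_finsetSum_index (by simp) (by intro a b c; push_cast; ring)]
    refine Finset.sum_congr rfl fun z _ => ?_
    rw [Finsupp.sum_single_index (by simp)]
  have hnn : ∀ σ, 0 ≤ b lam σ := by
    intro σ
    by_cases hσ : σ ∈ (b lam).support
    · have hσF : σ ∈ F := Finset.mem_biUnion.2 ⟨lam, hfin.mem_toFinset.2 hmem, hσ⟩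
      have h6 := DFunLike.congr_fun hκ0 (w σ lam)
      rw [hκ, Finsupp.sub_apply, Finsupp.zero_apply, sub_eq_zero, Finsupp.mapRange_apply,
        Multiset.toFinsupp_apply] at h6
      rw [Finsupp.finsetSum_apply] at h6
      have h7 : ∀ lam' ∈ hfin.toFinset, (∑ z ∈ (b lam').support,
          Finsupp.single (w z lam') (b lam' z)) (w σ lam) =
            if lam' = lam then b lam σ else 0 := by
        intro lam' hl
        rw [Finsupp.finsetSum_apply]
        have hl' : lam' ∈ Par (r + 1) k := hfin.mem_toFinset.1 hl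
        by_cases hll : lam' = lam
        · subst hll
          rw [if_pos rfl, Finset.sum_eq_single σ]
          · simp
          · intro z hz hzσ
            rw [Finsupp.single_apply, if_neg]
            intro h8
            exact hzσ (hinj z (Finset.mem_biUnion.2 ⟨lam', hl, hz⟩) σ hσF lam' hl' lam' hl'
              h8).1
          · intro h; exact absurd hσ h
        · rw [if_neg hll]
          refine Finset.sum_eq_zero fun z hz => ?_
          rw [Finsupp.single_apply, if_neg]
          intro h8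
          exact hll (hinj z (Finset.mem_biUnion.2 ⟨lam', hl, hz⟩) σ hσF lam' hl' lam hmem
            h8).2
      rw [Finset.sum_congr rfl h7, Finset.sum_ite_eq' hfin.toFinset lam,
        if_pos (hfin.mem_toFinset.2 hmem)] at h6
      rw [← h6]
      positivity
    · rw [Finsupp.notMem_support_iff] at hσ
      rw [hσ]
  refine ⟨∑ σ ∈ (b lam).support, (b lam σ).toNat • {σ}, fun p => ?_⟩
  rw [hb lam p, sum_eigs, Finsupp.sum]
  rw [← Multiset.coe_mapAddMonoidHom, map_sum, ← Multiset.coe_sumAddMonoidHom, map_sum]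
  refine Finset.sum_congr rfl fun σ _ => ?_
  rw [map_nsmul, map_nsmul]
  simp only [Multiset.coe_mapAddMonoidHom, Multiset.map_singleton, Multiset.coe_sumAddMonoidHom,
    Multiset.sum_singleton, nsmul_eq_mul]
  congr 1
  have := Int.toNat_of_nonneg (hnn σ)
  exact_mod_cast congrArg (fun z : ℤ => (z : ℂ)) this

end Pool.H66.SYM
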