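import Pool.Agent.H66.SYM.Basic

/-!
# An empty row may be omitted
-/

namespace Pool.H66.SYM

theorem s_ZRO (hHSB : S_HSB) : S_ZRO := by
  intro r lam X
  unfold schur JT
  rw [Matrix.det_succ_row _ (Fin.last r), Finset.sum_eq_single (Fin.last r)]
  · rw [Matrix.of_apply, Fin.snoc_last]
    have h1 : ((0 : ℕ) : ℤ) - ((Fin.last r : Fin (r + 1)) : ℕ) + ((Fin.last r : Fin (r + 1)) : ℕ) =
        0 := by ring
    rw [h1]
    have h2 : sz (fun k => hs k X) 0 = 1 := by
      simp [sz, hHSB.1]
    rw [h2, mul_one]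
    have h3 : ((-1 : ℂ)) ^ ((Fin.last r : ℕ) + (Fin.last r : ℕ)) = 1 := by
      rw [← two_mul, pow_mul]
      simp
    rw [h3, one_mul]
    congr 1
    ext i j
    simp [Matrix.submatrix_apply, Fin.succAbove_last]
  · intro j _ hj
    have hj' : (j : ℕ) < r := by
      have := j.is_lt
      have h2 : (j : ℕ) ≠ r := fun h => hj (Fin.ext h)
      omega
    rw [Matrix.of_apply, Fin.snoc_last]
    have h2 : sz (fun k => hs k X) (((0 : ℕ) : ℤ) - ((Fin.last r : Fin (r + 1)) : ℕ) + (j : ℕ)) =
        0 := by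
      unfold sz
      rw [if_neg]
      simp only [Fin.val_last]
      omega
    rw [h2]
    ring
  · intro h
    exact absurd (Finset.mem_univ _) h

end Pool.H66.SYM
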