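import Pool.Agent.H66.SYM.Basic

/-!
# Eigenvalues of parameters
-/

namespace Pool.H66.SYM

open Filter Topology

theorem BAS_map_sum {ι : Type} (s : Finset ι) (f : ι → Multiset ℂ) (g : ℂ → ℂ) :
    (∑ i ∈ s, f i).map g = ∑ i ∈ s, (f i).map g := by
  rw [← Multiset.coe_mapAddMonoidHom, map_sum]

theorem BAS_mem_sum {ι : Type} (s : Finset ι) (f : ι → Multiset ℂ) (a : ℂ) :
    a ∈ ∑ i ∈ s, f i ↔ ∃ i ∈ s, a ∈ f i := by
  classical
  induction s using Finset.induction_on with
  | empty => simp
  | insert i s hi ih => rw [Finset.sum_insert hi, Multiset.mem_add, ih]; simp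

theorem BAS_card_sum {ι : Type} (s : Finset ι) (f : ι → Multiset ℂ) :
    (∑ i ∈ s, f i).card = ∑ i ∈ s, (f i).card := by
  classical
  induction s using Finset.induction_on with
  | empty => simp
  | insert i s hi ih => rw [Finset.sum_insert hi, Multiset.card_add, ih, Finset.sum_insert hi]

theorem BAS_prod_sum {ι : Type} (s : Finset ι) (f : ι → Multiset ℂ) :
    (∑ i ∈ s, f i).prod = ∏ i ∈ s, (f i).prod := by
  classical
  induction s using Finset.induction_on with
  | empty => simp
  | insert i s hi ih => rw [Finset.sum_insert hi, Multiset.prod_add, ih, Finset.prod_insert hi]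

theorem BAS_deg_one (A : Aut) {χ : A.Cusp} (hχ : A.deg χ = 1) (p : A.Pt) :
    A.eig χ p = A.loc χ p.v 0 p.g := by
  unfold AData.eig
  rw [hχ]
  simp

theorem BAS_mem (A : Aut) (σ : A.Cusp) (p : A.Pt) (a : ℂ) (h : a ∈ A.eig σ p) :
    ∃ n i b, b ∈ A.loc σ p.v n p.g ∧ a = b * (p.s : ℂ) ^ ((n : ℤ) - 2 * (i : ℤ)) := by
  unfold AData.eig at h
  rw [BAS_mem_sum] at h
  obtain ⟨n, _, h⟩ := h
  rw [BAS_mem_sum] at h
  obtain ⟨i, _, h⟩ := h
  rw [Multiset.mem_map] at h
  obtain ⟨b, hb, h⟩ := h
  exact ⟨n, i, b, hb, h.symm⟩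

/-- The product of the eigenvalues does not depend on `s`. -/
theorem BAS_prod (A : Aut) (σ : A.Cusp) (v : A.Pl) (g : A.W v) (s : ℂˣ) :
    (A.eig σ ⟨v, g, s⟩).prod = (A.eig σ ⟨v, g, 1⟩).prod := by
  unfold AData.eig
  rw [BAS_prod_sum, BAS_prod_sum]
  refine Finset.prod_congr rfl fun n _ => ?_
  rw [BAS_prod_sum, BAS_prod_sum]
  have h1 : ∀ (x : ℂˣ) (i : ℕ), ((A.loc σ v n g).map fun a => a * (x : ℂ) ^
      ((n : ℤ) - 2 * (i : ℤ))).prod = (A.loc σ v n g).prod *
        ((x : ℂ) ^ ((n : ℤ) - 2 * (i : ℤ))) ^ (A.loc σ v n g).card := by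
    intro x i
    rw [Multiset.prod_map_mul, Multiset.map_id']
    simp
  simp only [h1]
  rw [Finset.prod_mul_distrib, Finset.prod_mul_distrib]
  congr 1
  rw [Finset.prod_pow, Finset.prod_pow]
  have h2 : ∀ x : ℂˣ, ∏ i ∈ Finset.range (n + 1), (x : ℂ) ^ ((n : ℤ) - 2 * (i : ℤ)) = 1 := by
    intro x
    have h3 : ∀ s : Finset ℕ, ∏ i ∈ s, (x : ℂ) ^ ((n : ℤ) - 2 * (i : ℤ)) =
        (x : ℂ) ^ ∑ i ∈ s, ((n : ℤ) - 2 * (i : ℤ)) := by
      intro s
      induction s using Finset.induction_on with
      | empty => simp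
      | insert i s hi ih =>
        rw [Finset.prod_insert hi, Finset.sum_insert hi, zpow_add₀ x.ne_zero, ih]
    rw [h3]
    have h4 : ∑ i ∈ Finset.range (n + 1), ((n : ℤ) - 2 * (i : ℤ)) = 0 := by
      rw [Finset.sum_sub_distrib, ← Finset.mul_sum]
      have h5 : (∑ i ∈ Finset.range (n + 1), (i : ℤ)) * 2 = ((n : ℤ) + 1) * n := by
        have h6 := Finset.sum_range_id_mul_two (n + 1)
        simp only [Nat.add_sub_cancel] at h6
        have h7 := congrArg (fun k : ℕ => (k : ℤ)) h6
        push_cast at h7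
        exact h7
      simp only [Finset.sum_const, Finset.card_range, nsmul_eq_mul]
      push_cast
      linarith
    rw [h4, zpow_zero]
  rw [h2, h2]

theorem s_BAS : S_BAS := by
  intro A
  refine ⟨?_, ?_, ?_, ?_, ?_, ?_, ?_, ?_, ?_, ?_, ?_, ?_⟩
  · -- card
    intro σ p
    refine Eq.trans ?_ (A.loc_card σ p.v p.g)
    unfold AData.eig
    rw [BAS_card_sum]
    refine Finset.sum_congr rfl fun n _ => ?_
    rw [BAS_card_sum]
    simp
  · -- nonzero
    intro σ p h
    obtain ⟨n, i, b, hb, h⟩ := BAS_mem A σ p 0 h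
    rcases mul_eq_zero.1 h.symm with h | h
    · exact A.loc_ne σ p.v n p.g (h ▸ hb)
    · exact zpow_ne_zero _ p.s.ne_zero h
  · -- powers
    intro σ p k
    unfold AData.eig AData.Pt.pow
    rw [BAS_map_sum]
    refine Finset.sum_congr rfl fun n _ => ?_
    rw [BAS_map_sum]
    refine Finset.sum_congr rfl fun i _ => ?_
    simp only
    rw [A.loc_pow, Multiset.map_map, Multiset.map_map]
    refine Multiset.map_congr rfl fun a _ => ?_
    simp only [Function.comp_apply]
    rw [mul_zpow, Units.val_zpow_eq_zpow_val, ← zpow_mul, ← zpow_mul, mul_comm k]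
  · -- one
    intro p
    rw [BAS_deg_one A A.deg_one, A.loc_one]
  · -- dual
    intro σ p
    unfold AData.eig
    rw [A.deg_dual, BAS_map_sum]
    refine Finset.sum_congr rfl fun n _ => ?_
    rw [BAS_map_sum]
    rw [← Finset.sum_range_reflect]
    refine Finset.sum_congr rfl fun i hi => ?_
    rw [A.loc_dual, Multiset.map_map, Multiset.map_map]
    refine Multiset.map_congr rfl fun a _ => ?_
    simp only [Function.comp_apply]
    rw [mul_inv, ← zpow_neg]
    congr 2
    have : i ≤ n := by have := Finset.mem_range.1 hi; omega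
    have h1 : n + 1 - 1 - i = n - i := by omega
    rw [h1]
    push_cast [this]
    ring
  · -- twist
    intro χ σ p hχ
    unfold AData.tr
    rw [BAS_deg_one A hχ]
    unfold AData.eig
    rw [A.deg_mul χ σ hχ, BAS_map_sum]
    refine Finset.sum_congr rfl fun n _ => ?_
    rw [BAS_map_sum]
    refine Finset.sum_congr rfl fun i _ => ?_
    rw [A.loc_mul χ σ hχ, Multiset.map_map, Multiset.map_map]
    refine Multiset.map_congr rfl fun a _ => ?_
    simp only [Function.comp_apply]
    ring
  · -- det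
    intro σ p
    rw [BAS_deg_one A (A.deg_det σ), A.loc_det, ← BAS_prod A σ p.v p.g p.s]
  · -- nrm
    intro x p
    rw [BAS_deg_one A (A.deg_nrm x), A.loc_nrm]
  · -- herm
    intro σ v g
    unfold AData.eig
    rw [BAS_map_sum, BAS_map_sum]
    refine Finset.sum_congr rfl fun n _ => ?_
    rw [BAS_map_sum, BAS_map_sum]
    refine Finset.sum_congr rfl fun i _ => ?_
    simp only [Units.val_one, one_zpow, mul_one, Multiset.map_id']
    exact A.herm σ v n g
  · -- conj
    intro σ v g h s
    unfold AData.eig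
    simp only [A.loc_conj]
  · -- inverse
    intro σ v g s
    unfold AData.eig
    refine Finset.sum_congr rfl fun n _ => ?_
    rw [← Finset.sum_range_reflect]
    refine Finset.sum_congr rfl fun i hi => ?_
    refine Multiset.map_congr rfl fun a _ => ?_
    congr 1
    have : i ≤ n := by have := Finset.mem_range.1 hi; omega
    have h1 : n + 1 - 1 - i = n - i := by omega
    rw [h1, Units.val_inv_eq_inv_val, inv_zpow', ]
    congr 1
    push_cast [this]
    ring
  · -- bound
    intro σ v a ha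
    obtain ⟨n, i, b, hb, h⟩ := BAS_mem A σ _ a ha
    have h1 : a = b := by
      rw [h]
      simp [AData.frob]
    rw [h1]
    exact A.js σ v n b hb

end Pool.H66.SYM
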